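import Pool.Agent.H402.FR.NC

/-! # `R`-rank, families with two non-crossing maximal bipartitions -/

open scoped BigOperators
open Finset

namespace Pool.Agent.H402.FR

noncomputable section

variable {F : Type*} [Field F] {d : ℕ} {Q : Fin d → Type*}

/-- The restriction of `T` to the box `∏ X α` is a sum of fewer than `k` tensors of `R`-rank at
most one (a product over the parts `S` of a partition `P ∈ R` of functions of the coordinates
in `S`).  So `¬ RankLT R T X k` says that `rk_R T(X) ≥ k`. -/
def RankLT (R : Set (Finpartition (univ : Finset (Fin d)))) (T : (∀ α, Q α) → F)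
    (X : ∀ α, Finset (Q α)) (k : ℕ) : Prop :=
  ∃ r : ℕ, r < k ∧ ∃ P : Fin r → Finpartition (univ : Finset (Fin d)), (∀ i, P i ∈ R) ∧
    ∃ f : Fin r → Finset (Fin d) → (∀ α, Q α) → F,
      (∀ i S x y, (∀ α ∈ S, x α = y α) → f i S x = f i S y) ∧
      ∀ x, (∀ α, x α ∈ X α) → T x = ∑ i, ∏ S ∈ (P i).parts, f i S x

theorem RankLT.of_fintype {R : Set (Finpartition (univ : Finset (Fin d)))} {T : (∀ α, Q α) → F}
    {X : ∀ α, Finset (Q α)} {k : ℕ} {ι : Type*} [Fintype ι] (hk : Fintype.card ι < k)
    (P : ι → Finpartition (univ : Finset (Fin d))) (hP : ∀ i, P i ∈ R)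
    (f : ι → Finset (Fin d) → (∀ α, Q α) → F)
    (hf : ∀ i S x y, (∀ α ∈ S, x α = y α) → f i S x = f i S y)
    (h : ∀ x, (∀ α, x α ∈ X α) → T x = ∑ i, ∏ S ∈ (P i).parts, f i S x) : RankLT R T X k := by
  refine ⟨Fintype.card ι, hk, fun i => P ((Fintype.equivFin ι).symm i), fun i => hP _,
    fun i => f ((Fintype.equivFin ι).symm i), fun i => hf _, fun x hx => ?_⟩
  rw [h x hx]
  exact (Equiv.sum_comp (Fintype.equivFin ι).symm (fun i => ∏ S ∈ (P i).parts, f i S x)).symm

/-- a partition with parts `I` and `Iᶜ` has no other parts -/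
theorem parts_eq {B : Finpartition (univ : Finset (Fin d))} {I : Finset (Fin d)}
    (h1 : I ∈ B.parts) (h2 : Iᶜ ∈ B.parts) : B.parts = {I, Iᶜ} := by
  ext c
  rw [Finset.mem_insert, Finset.mem_singleton]
  constructor
  · intro hc
    by_contra hne
    push Not at hne
    have d1 : Disjoint c I := B.disjoint hc h1 hne.1
    have d2 : Disjoint c Iᶜ := B.disjoint hc h2 hne.2
    have : c = ∅ := by
      rw [Finset.eq_empty_iff_forall_notMem]
      intro a ha
      by_cases haI : a ∈ I
      · exact Finset.disjoint_left.1 d1 ha haI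
      · exact Finset.disjoint_left.1 d2 ha (Finset.mem_compl.2 haI)
    exact B.ne_bot hc this
  · rintro (rfl | rfl) <;> assumption

theorem ne_compl {B : Finpartition (univ : Finset (Fin d))} {I : Finset (Fin d)}
    (h1 : I ∈ B.parts) : I ≠ Iᶜ := by
  intro h
  have h2 : I.Nonempty := Finset.nonempty_iff_ne_empty.2 (B.ne_bot h1)
  obtain ⟨a, ha⟩ := h2
  have h3 := ha
  rw [h, Finset.mem_compl] at h3
  exact h3 ha

/-- glue three partial points -/
def glue (I J : Finset (Fin d)) (x : ∀ α : {a // a ∉ I ∧ a ∉ J}, Q α) (y : ∀ α : {a // a ∈ I}, Q α)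
    (z : ∀ α : {a // a ∈ J}, Q α) : ∀ α, Q α := fun α =>
  if h : α ∈ I then y ⟨α, h⟩ else if h' : α ∈ J then z ⟨α, h'⟩ else x ⟨α, h, h'⟩

theorem glue_self (I J : Finset (Fin d)) (x : ∀ α, Q α) :
    glue I J (fun α => x α) (fun α => x α) (fun α => x α) = x := by
  funext α
  unfold glue
  split_ifs <;> rfl

/-- splitting of a product over the parts of a partition finer than `{I, Iᶜ}` -/
theorem split_prod {B P : Finpartition (univ : Finset (Fin d))} {I : Finset (Fin d)}
    (h1 : I ∈ B.parts) (h2 : Iᶜ ∈ B.parts) (hP : P ≤ B) (f : Finset (Fin d) → (∀ α, Q α) → F)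
    (hf : ∀ S x y, (∀ α ∈ S, x α = y α) → f S x = f S y) :
    ∃ a b : (∀ α, Q α) → F, (∀ x y, (∀ α ∈ I, x α = y α) → a x = a y) ∧
      (∀ x y, (∀ α, α ∉ I → x α = y α) → b x = b y) ∧
      ∀ x, ∏ S ∈ P.parts, f S x = a x * b x := by
  classical
  refine ⟨fun x => ∏ S ∈ P.parts with S ⊆ I, f S x, fun x => ∏ S ∈ P.parts with ¬ S ⊆ I, f S x,
    fun x y h => ?_, fun x y h => ?_, fun x => ?_⟩
  · refine Finset.prod_congr rfl fun S hS => ?_
    exact hf S x y fun α hα => h α ((Finset.mem_filter.1 hS).2 hα)
  · refine Finset.prod_congr rfl fun S hS => ?_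
    refine hf S x y fun α hα => h α ?_
    obtain ⟨hS1, hS2⟩ := Finset.mem_filter.1 hS
    obtain ⟨c, hc, hSc⟩ := hP hS1
    rw [parts_eq h1 h2, Finset.mem_insert, Finset.mem_singleton] at hc
    rcases hc with rfl | rfl
    · exact absurd hSc hS2
    · exact Finset.mem_compl.1 (hSc hα)
  · exact (Finset.prod_filter_mul_prod_filter_not P.parts (fun S => S ⊆ I) _).symm

/-- **Theorem B.** Families with two non-crossing maximal bipartitions. -/
theorem full_two [∀ α, Fintype (Q α)] {R : Set (Finpartition (univ : Finset (Fin d)))}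
    {B₁ B₂ : Finpartition (univ : Finset (Fin d))} (hB₁ : B₁ ∈ R) (hB₂ : B₂ ∈ R)
    {I J : Finset (Fin d)} (hI : I ∈ B₁.parts) (hI' : Iᶜ ∈ B₁.parts) (hJ : J ∈ B₂.parts)
    (hJ' : Jᶜ ∈ B₂.parts) (hIJ : Disjoint I J) (hR : ∀ P ∈ R, P ≤ B₁ ∨ P ≤ B₂)
    (T : (∀ α, Q α) → F) (l : ℕ) (hT : ¬ RankLT R T (fun _ => univ) (2 * l ^ 2)) :
    ∃ X : ∀ α, Finset (Q α), (∀ α, (X α).card ≤ l) ∧ ¬ RankLT R T X l := by
  classical
  set T' : (∀ α : {a // a ∉ I ∧ a ∉ J}, Q α) → (∀ α : {a // a ∈ I}, Q α) →
    (∀ α : {a // a ∈ J}, Q α) → F := fun x y z => T (glue I J x y z) with hT'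
  have key := nc_full T' l ?_
  · obtain ⟨A, e, f, hA, hAef⟩ := key
    refine ⟨fun α => if h : α ∈ I then univ.image (fun i => e i ⟨α, h⟩)
      else if h' : α ∈ J then univ.image (fun i => f i ⟨α, h'⟩)
      else A.image (fun x => x ⟨α, h, h'⟩), fun α => ?_, ?_⟩
    · simp only
      split_ifs with h h'
      · exact Finset.card_image_le.trans (by simp)
      · exact Finset.card_image_le.trans (by simp)
      · exact Finset.card_image_le.trans hA
    · rintro ⟨r, hr, P, hP, φ, hφ, H⟩
      apply hAef
      -- split the terms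
      have hsplit1 : ∀ i : {i // P i ≤ B₁}, ∃ a b : (∀ α, Q α) → F,
          (∀ x y, (∀ α ∈ I, x α = y α) → a x = a y) ∧
          (∀ x y, (∀ α, α ∉ I → x α = y α) → b x = b y) ∧
          ∀ x, ∏ S ∈ (P i).parts, φ i S x = a x * b x := fun i =>
        split_prod hI hI' i.2 (φ i) (hφ i)
      have hsplit2 : ∀ i : {i // ¬ P i ≤ B₁}, ∃ a b : (∀ α, Q α) → F,
          (∀ x y, (∀ α ∈ J, x α = y α) → a x = a y) ∧
          (∀ x y, (∀ α, α ∉ J → x α = y α) → b x = b y) ∧
          ∀ x, ∏ S ∈ (P i).parts, φ i S x = a x * b x := fun i =>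
        split_prod hJ hJ' ((hR _ (hP i)).resolve_left i.2) (φ i) (hφ i)
      choose a₁ b₁ ha₁ hb₁ h₁ using hsplit1
      choose a₂ b₂ ha₂ hb₂ h₂ using hsplit2
      by_cases hne : Nonempty (∀ α, Q α)
      · obtain ⟨w⟩ := hne
        refine NCLT.of_fintype (ι := {i // P i ≤ B₁}) (κ := {i // ¬ P i ≤ B₁}) ?_
          (fun i y => a₁ i (glue I J (fun α => w α) y (fun α => w α)))
          (fun i x z => b₁ i (glue I J x (fun α => w α) z))
          (fun i x y => b₂ i (glue I J x y (fun α => w α)))
          (fun i z => a₂ i (glue I J (fun α => w α) (fun α => w α) z)) ?_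
        · rw [Fintype.card_subtype_compl]
          simp only [Fintype.card_fin]
          have := Fintype.card_subtype_le (fun i : Fin r => P i ≤ B₁)
          simp only [Fintype.card_fin] at this
          omega
        · intro x hx y hy z hz
          obtain ⟨iy, rfl⟩ := hy
          obtain ⟨iz, rfl⟩ := hz
          have e0 : T' x (e iy) (f iz) = ∑ i, ∏ S ∈ (P i).parts, φ i S
              (glue I J x (e iy) (f iz)) := by
            rw [hT']
            refine H _ fun α => ?_
            simp only [glue]
            split_ifs with h h'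
            · exact Finset.mem_image_of_mem _ (Finset.mem_univ _)
            · exact Finset.mem_image_of_mem _ (Finset.mem_univ _)
            · exact Finset.mem_image_of_mem (fun x : (∀ α : {a // a ∉ I ∧ a ∉ J}, Q α) =>
                x ⟨α, h, h'⟩) hx
          rw [e0, ← Fintype.sum_subtype_add_sum_subtype (fun i => P i ≤ B₁)]
          congr 1
          · refine Finset.sum_congr rfl fun i _ => ?_
            rw [h₁ i]
            congr 1
            · refine ha₁ i _ _ fun α hα => ?_
              simp only [glue, dif_pos hα]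
            · refine hb₁ i _ _ fun α hα => ?_
              simp only [glue, dif_neg hα]
          · refine Finset.sum_congr rfl fun i _ => ?_
            rw [h₂ i, mul_comm]
            congr 1
            · refine hb₂ i _ _ fun α hα => ?_
              simp only [glue, dif_neg hα]
            · refine ha₂ i _ _ fun α hα => ?_
              have hαI : α ∉ I := fun h => Finset.disjoint_left.1 hIJ h hα
              simp only [glue, dif_neg hαI, dif_pos hα]
      · -- empty case
        refine ⟨0, 0, by omega, Fin.elim0, Fin.elim0, Fin.elim0, Fin.elim0, fun x _ y _ z _ => ?_⟩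
        exact absurd ⟨glue I J x y z⟩ hne
  · rintro ⟨p, q, hpq, a, g, h, b, H⟩
    apply hT
    refine RankLT.of_fintype (ι := Fin p ⊕ Fin q) (by simpa using hpq)
      (Sum.elim (fun _ => B₁) (fun _ => B₂)) (by rintro (i | i); exacts [hB₁, hB₂])
      (Sum.elim
        (fun i S x => if S = I then a i (fun α => x α)
          else if S = Iᶜ then g i (fun α => x α) (fun α => x α) else 0)
        (fun i S x => if S = J then b i (fun α => x α)
          else if S = Jᶜ then h i (fun α => x α) (fun α => x α) else 0)) ?_ ?_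
    · rintro (i | i) S x y hxy
      · simp only [Sum.elim_inl]
        split_ifs with h1 h2
        · subst h1
          congr 1
          funext α
          exact hxy α α.2
        · subst h2
          congr 1
          · funext α
            exact hxy α (Finset.mem_compl.2 α.2.1)
          · funext α
            exact hxy α (Finset.mem_compl.2 fun h' => Finset.disjoint_left.1 hIJ h' α.2)
        · rfl
      · simp only [Sum.elim_inr]
        split_ifs with h1 h2
        · subst h1
          congr 1
          funext α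
          exact hxy α α.2
        · subst h2
          congr 1
          · funext α
            exact hxy α (Finset.mem_compl.2 α.2.2)
          · funext α
            exact hxy α (Finset.mem_compl.2 fun h' => Finset.disjoint_left.1 hIJ α.2 h')
        · rfl
    · intro x _
      have e0 : T x = T' (fun α => x α) (fun α => x α) (fun α => x α) := by
        rw [hT']
        simp only
        rw [glue_self]
      rw [e0, H _ (Set.mem_univ _) _ (Set.mem_univ _) _ (Set.mem_univ _), Fintype.sum_sum_type]
      congr 1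
      · refine Finset.sum_congr rfl fun i _ => ?_
        simp only [Sum.elim_inl]
        rw [parts_eq hI hI', Finset.prod_pair (ne_compl hI)]
        rw [if_pos rfl, if_neg (ne_compl hI).symm, if_pos rfl]
      · refine Finset.sum_congr rfl fun i _ => ?_
        simp only [Sum.elim_inr]
        rw [parts_eq hJ hJ', Finset.prod_pair (ne_compl hJ)]
        rw [if_pos rfl, if_neg (ne_compl hJ).symm, if_pos rfl, mul_comm]

end

end Pool.Agent.H402.FR
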