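import Pool.Agent.H402.FR.Top

/-! # `R`-rank, minors of size two -/

open scoped BigOperators
open Finset

namespace Pool.Agent.H402.FR

noncomputable section

variable {F : Type*} [Field F] {d : ℕ} {Q : Fin d → Type*}

/-- the point with the coordinates of `x` in `I` and those of `m` elsewhere -/
def mix (m : ∀ α, Q α) (I : Finset (Fin d)) (x : ∀ α, Q α) : ∀ α, Q α :=
  fun α => if α ∈ I then x α else m α

/-- normalised value -/
def tv (T : (∀ α, Q α) → F) (m : ∀ α, Q α) (x : ∀ α, Q α) (I : Finset (Fin d)) : F :=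
  T (mix m I x) / T m

/-- on a two-cube of `R`-rank at most one the normalised values are multiplicative -/
theorem tv_mult {R : Set (Finpartition (univ : Finset (Fin d)))} {T : (∀ α, Q α) → F}
    {m : ∀ α, Q α} (hm : T m ≠ 0) (x : ∀ α, Q α) [∀ α, DecidableEq (Q α)]
    (h : RankLT R T (fun α => {m α, x α}) 2) :
    ∃ P ∈ R, ∀ J : Finset (Fin d), tv T m x J = ∏ K ∈ P.parts, tv T m x (J ∩ K) := by
  classical
  obtain ⟨r, hr, P, hP, f, hf, H⟩ := h
  have hr' : r = 0 ∨ r = 1 := by omega
  rcases hr' with rfl | rfl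
  · exfalso
    apply hm
    rw [H m fun α => by simp]
    simp
  simp only [Fin.sum_univ_one] at H
  refine ⟨P 0, hP 0, fun J => ?_⟩
  have hmix : ∀ I, T (mix m I x) = ∏ S ∈ (P 0).parts, f 0 S (mix m I x) := fun I =>
    H _ fun α => by unfold mix; split_ifs <;> simp
  have hTm : T m = ∏ S ∈ (P 0).parts, f 0 S m := H _ fun α => by simp
  have hfm : ∀ K ∈ (P 0).parts, f 0 K m ≠ 0 := by
    intro K hK h0
    exact hm (by rw [hTm]; exact Finset.prod_eq_zero hK h0)
  have key : ∀ K ∈ (P 0).parts, tv T m x (J ∩ K) = f 0 K (mix m J x) / f 0 K m := by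
    intro K hK
    unfold tv
    rw [hmix, hTm, ← Finset.mul_prod_erase _ _ hK, ← Finset.mul_prod_erase _ (fun S => f 0 S m) hK]
    have e1 : f 0 K (mix m (J ∩ K) x) = f 0 K (mix m J x) := by
      refine hf 0 K _ _ fun α hα => ?_
      unfold mix
      by_cases hJ : α ∈ J
      · rw [if_pos hJ, if_pos (Finset.mem_inter.2 ⟨hJ, hα⟩)]
      · rw [if_neg hJ, if_neg fun h => hJ (Finset.mem_inter.1 h).1]
    have e2 : ∏ S ∈ (P 0).parts.erase K, f 0 S (mix m (J ∩ K) x)
        = ∏ S ∈ (P 0).parts.erase K, f 0 S m := by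
      refine Finset.prod_congr rfl fun S hS => hf 0 S _ _ fun α hα => ?_
      unfold mix
      rw [if_neg]
      intro h
      exact Finset.disjoint_left.1 ((P 0).disjoint (Finset.mem_erase.1 hS).2 hK
        (Finset.mem_erase.1 hS).1) hα (Finset.mem_inter.1 h).2
    have e3 : ∏ S ∈ (P 0).parts.erase K, f 0 S m ≠ 0 :=
      Finset.prod_ne_zero_iff.2 fun S hS => hfm S (Finset.mem_erase.1 hS).2
    rw [e1, e2, mul_div_mul_right _ _ e3]
  rw [Finset.prod_congr rfl key, Finset.prod_div_distrib, ← hmix, ← hTm]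
  rfl

/-- the product over the parts does not change under a meet with a multiplicative partition -/
theorem prod_inf {P Q' : Finpartition (univ : Finset (Fin d))} (t : Finset (Fin d) → F)
    (h0 : t ∅ = 1) (h : ∀ J, t J = ∏ K ∈ P.parts, t (J ∩ K)) :
    ∏ I ∈ (P ⊓ Q').parts, t I = ∏ I ∈ Q'.parts, t I := by
  classical
  rw [Finpartition.parts_inf, Finset.prod_erase _ (by simpa using h0),
    Finset.prod_image_of_pairwise_eq_one, Finset.prod_product_right]
  · refine Finset.prod_congr rfl fun J _ => ?_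
    rw [h J]
    refine Finset.prod_congr rfl fun K _ => ?_
    rw [Finset.inter_comm J K]
    rfl
  · rintro ⟨K, J⟩ h1 ⟨K', J'⟩ h2 hne heq
    simp only at heq
    rw [Finset.mem_coe, Finset.mem_product] at h1 h2
    simp only at h1 h2
    have : K ⊓ J = ∅ := by
      rw [Finset.eq_empty_iff_forall_notMem]
      intro a ha
      have ha' := ha
      rw [heq] at ha'
      rw [Finset.inf_eq_inter, Finset.mem_inter] at ha ha'
      have e1 : K = K' := by
        by_contra hcon
        exact Finset.disjoint_left.1 (P.disjoint h1.1 h2.1 hcon) ha.1 ha'.1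
      have e2 : J = J' := by
        by_contra hcon
        exact Finset.disjoint_left.1 (Q'.disjoint h1.2 h2.2 hcon) ha.2 ha'.2
      exact hne (by rw [e1, e2])
    rw [this]
    exact h0

/-- inclusion-exclusion over the meets of members of a finite family -/
theorem incl_excl (R : Finset (Finpartition (univ : Finset (Fin d))))
    {P : Finpartition (univ : Finset (Fin d))} (hP : P ∈ R) (t : Finset (Fin d) → F)
    (h0 : t ∅ = 1) (h : ∀ J, t J = ∏ K ∈ P.parts, t (J ∩ K)) :
    ∑ S ∈ R.powerset, (-1) ^ S.card * ∏ I ∈ (S.inf id).parts, t I = 0 := by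
  classical
  rw [← Finset.insert_erase hP, Finset.sum_powerset_insert (Finset.notMem_erase P R),
    ← Finset.sum_add_distrib]
  refine Finset.sum_eq_zero fun S hS => ?_
  have hPS : P ∉ S := fun hh => Finset.notMem_erase P R (Finset.mem_powerset.1 hS hh)
  rw [Finset.card_insert_of_notMem hPS, Finset.inf_insert, id, prod_inf t h0 h]
  ring

theorem top_prod (hd : 0 < d) (t : Finset (Fin d) → F) :
    ∏ I ∈ (⊤ : Finpartition (univ : Finset (Fin d))).parts, t I = t univ := by
  classical
  have hne : (univ : Finset (Fin d)) ≠ ⊥ := by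
    intro h
    have : (⟨0, hd⟩ : Fin d) ∈ (⊥ : Finset (Fin d)) := h ▸ Finset.mem_univ _
    simp at this
  have h1 : (⊤ : Finpartition (univ : Finset (Fin d))).parts = {univ} := by
    apply Finset.eq_singleton_iff_unique_mem.2
    refine ⟨?_, fun b hb => Finset.mem_singleton.1 (Finpartition.parts_top_subset _ hb)⟩
    obtain ⟨b, hb⟩ := (Finpartition.parts_nonempty (⊤ : Finpartition (univ : Finset (Fin d))) hne)
    have := Finset.mem_singleton.1 (Finpartition.parts_top_subset _ hb)
    subst this
    exact hb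
  rw [h1, Finset.prod_singleton]

/-- **Minors of size two.** -/
theorem size_two [∀ α, Fintype (Q α)] (hd : 0 < d)
    (R : Set (Finpartition (univ : Finset (Fin d))))
    (T : (∀ α, Q α) → F)
    (h : ∀ X : ∀ α, Finset (Q α), (∀ α, (X α).card ≤ 2) → RankLT R T X 2) :
    RankLT R T (fun _ => univ) (2 ^ R.ncard) := by
  classical
  by_cases hT : ∀ x, T x = 0
  · exact ⟨0, by positivity, Fin.elim0, fun i => i.elim0, Fin.elim0, fun i => i.elim0,
      fun x _ => by simp [hT]⟩
  push Not at hT
  obtain ⟨m, hm⟩ := hT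
  set RF : Finset (Finpartition (univ : Finset (Fin d))) := R.toFinite.toFinset with hRF
  have hcard : RF.card = R.ncard := (Set.ncard_eq_toFinset_card R R.toFinite).symm
  have hmem : ∀ P, P ∈ RF ↔ P ∈ R := fun P => by rw [hRF, Set.Finite.mem_toFinset]
  let ι := {S // S ∈ RF.powerset.erase ∅}
  have hι : ∀ S : ι, ∃ P, P ∈ S.1 := fun S =>
    Finset.nonempty_iff_ne_empty.2 (Finset.mem_erase.1 S.2).1
  choose p hp using hι
  have hpR : ∀ S : ι, p S ∈ R := fun S =>
    (hmem _).1 (Finset.mem_powerset.1 (Finset.mem_erase.1 S.2).2 (hp S))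
  have huniv : (univ : Finset (Fin d)) ≠ ⊥ := by
    intro h
    have : (⟨0, hd⟩ : Fin d) ∈ (⊥ : Finset (Fin d)) := h ▸ Finset.mem_univ _
    simp at this
  have hj : ∀ S : ι, ∃ J, J ∈ (p S).parts := fun S => (p S).parts_nonempty huniv
  choose j hj using hj
  have hle : ∀ S : ι, S.1.inf id ≤ p S := fun S => Finset.inf_le (f := id) (hp S)
  refine RankLT.of_fintype (ι := ι) ?_ p hpR
    (fun S J x => (if J = j S then -(-1) ^ S.1.card * T m else 1) *
      ∏ I ∈ (S.1.inf id).parts with I ⊆ J, tv T m x I) ?_ ?_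
  · rw [Fintype.card_coe, Finset.card_erase_of_mem (by simp), Finset.card_powerset, hcard]
    have : 0 < 2 ^ R.ncard := by positivity
    omega
  · intro S J x y hxy
    congr 1
    refine Finset.prod_congr rfl fun I hI => ?_
    unfold tv
    congr 2
    funext α
    unfold mix
    split_ifs with hα
    · exact hxy α ((Finset.mem_filter.1 hI).2 hα)
    · rfl
  · intro x _
    have e1 : ∀ S : ι, ∏ J ∈ (p S).parts, ((if J = j S then -(-1) ^ S.1.card * T m else 1) *
        ∏ I ∈ (S.1.inf id).parts with I ⊆ J, tv T m x I)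
        = -(T m * ((-1) ^ S.1.card * ∏ I ∈ (S.1.inf id).parts, tv T m x I)) := by
      intro S
      rw [Finset.prod_mul_distrib, ← coarsen (hle S), Finset.prod_ite_eq' (p S).parts (j S),
        if_pos (hj S)]
      ring
    rw [Finset.sum_congr rfl fun S _ => e1 S, Finset.sum_neg_distrib, ← Finset.mul_sum,
      Finset.sum_coe_sort (RF.powerset.erase ∅)
        (fun S => (-1) ^ S.card * ∏ I ∈ (S.inf id).parts, tv T m x I)]
    obtain ⟨P, hPR, hP⟩ := tv_mult hm x (h _ fun α => Finset.card_le_two)
    have h0 : tv T m x ∅ = 1 := by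
      unfold tv
      have : mix m ∅ x = m := by funext α; simp [mix]
      rw [this, div_self hm]
    have e2 := incl_excl RF ((hmem P).2 hPR) (tv T m x) h0 hP
    rw [← Finset.add_sum_erase _ _ (Finset.empty_mem_powerset RF), Finset.inf_empty,
      top_prod hd, Finset.card_empty, pow_zero, one_mul] at e2
    have e3 : tv T m x univ = T x / T m := by
      unfold tv
      have : mix m univ x = x := by funext α; simp [mix]
      rw [this]
    rw [e3] at e2
    have e4 := eq_neg_of_add_eq_zero_right e2
    rw [e4]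
    field_simp

end

end Pool.Agent.H402.FR
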