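import Pool.Agent.H402.FR.Two

/-! # Slice rank of order three, minors of size three -/

open scoped BigOperators
open Finset

namespace Pool.Agent.H402.FR

section alg

variable {F : Type*} [Field F]

/-- determinant of a two by two matrix -/
def det2 (A : Fin 2 → Fin 2 → F) : F := A 0 0 * A 1 1 - A 0 1 * A 1 0

/-- its polarisation -/
def B2 (A A' : Fin 2 → Fin 2 → F) : F :=
  A 0 0 * A' 1 1 + A 1 1 * A' 0 0 - A 0 1 * A' 1 0 - A 1 0 * A' 0 1

/-- the discriminant of a pencil (the hyperdeterminant) -/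
def D2 (A A' : Fin 2 → Fin 2 → F) : F := B2 A A' ^ 2 - 4 * det2 A * det2 A'

/-- slice rank at most one for a two by two by two tensor -/
def SL1 (m : Fin 2 → Fin 2 → Fin 2 → F) : Prop :=
  (∃ (a : Fin 2 → F) (g : Fin 2 → Fin 2 → F), ∀ k i j, m k i j = a k * g i j) ∨
  (∃ (b : Fin 2 → F) (g : Fin 2 → Fin 2 → F), ∀ k i j, m k i j = b i * g k j) ∨
  (∃ (c : Fin 2 → F) (g : Fin 2 → Fin 2 → F), ∀ k i j, m k i j = c j * g k i)

/-- the universal extension vector -/
structure UX (m : Fin 2 → Fin 2 → Fin 2 → F) (n : Fin 2 → Fin 2 → F) (s : Fin 2 → F) : Prop where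
  A : ∀ t : Fin 2 → F, (∀ i j, n i j + t 0 * m 0 i j + t 1 * m 1 i j = 0) → s = t
  B : ∀ (v a : Fin 2 → F) (a0 : F) (g : Fin 2 → F), v ≠ 0 → a ≠ 0 →
    (∀ j, v 0 * n 0 j + v 1 * n 1 j = a0 * g j) →
    (∀ k j, v 0 * m k 0 j + v 1 * m k 1 j = a k * g j) → a0 + s 0 * a 0 + s 1 * a 1 = 0
  C : ∀ (w a : Fin 2 → F) (a0 : F) (g : Fin 2 → F), w ≠ 0 → a ≠ 0 →
    (∀ i, w 0 * n i 0 + w 1 * n i 1 = a0 * g i) →
    (∀ k i, w 0 * m k i 0 + w 1 * m k i 1 = a k * g i) → a0 + s 0 * a 0 + s 1 * a 1 = 0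

theorem ne_zero_two {v : Fin 2 → F} (h : v ≠ 0) : v 0 ≠ 0 ∨ v 1 ≠ 0 := by
  by_contra hcon
  push Not at hcon
  apply h
  funext i
  fin_cases i
  · exact hcon.1
  · exact hcon.2

/-- part B for a nonzero discriminant -/
theorem UX1_B (m : Fin 2 → Fin 2 → Fin 2 → F) (n : Fin 2 → Fin 2 → F) (hD : D2 (m 0) (m 1) ≠ 0)
    (s : Fin 2 → F)
    (h0 : B2 (fun i j => n i j + s 0 * m 0 i j + s 1 * m 1 i j) (m 0) = 0)
    (h1 : B2 (fun i j => n i j + s 0 * m 0 i j + s 1 * m 1 i j) (m 1) = 0)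
    (v a : Fin 2 → F) (a0 : F) (g : Fin 2 → F) (hv : v ≠ 0) (ha : a ≠ 0)
    (hn : ∀ j, v 0 * n 0 j + v 1 * n 1 j = a0 * g j)
    (hm : ∀ k j, v 0 * m k 0 j + v 1 * m k 1 j = a k * g j) :
    a0 + s 0 * a 0 + s 1 * a 1 = 0 := by
  by_contra hne
  set e := a0 + s 0 * a 0 + s 1 * a 1 with he
  -- `u = (a 1, - a 0)`, `M_u = a 1 * m 0 - a 0 * m 1`
  set M : Fin 2 → Fin 2 → F := fun i j => a 1 * m 0 i j - a 0 * m 1 i j with hM
  set N : Fin 2 → Fin 2 → F := fun i j => n i j + s 0 * m 0 i j + s 1 * m 1 i j with hN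
  have hMv : ∀ j, v 0 * M 0 j + v 1 * M 1 j = 0 := by
    intro j
    simp only [hM]
    linear_combination a 1 * hm 0 j - a 0 * hm 1 j
  have hNv : ∀ j, v 0 * N 0 j + v 1 * N 1 j = e * g j := by
    intro j
    simp only [hN, he]
    linear_combination hn j + s 0 * hm 0 j + s 1 * hm 1 j
  have hB : B2 N M = 0 := by
    have : B2 N M = a 1 * B2 N (m 0) - a 0 * B2 N (m 1) := by
      simp only [B2, hM]; ring
    rw [this, h0, h1]; ring
  -- general formula
  have gen : ∀ (N' : Fin 2 → Fin 2 → F) (c : F), (∀ j, v 0 * N' 0 j + v 1 * N' 1 j = c * g j) →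
      v 0 * B2 N' M = c * (M 1 1 * g 0 - M 1 0 * g 1) ∧
      v 1 * B2 N' M = c * (M 0 0 * g 1 - M 0 1 * g 0) := by
    intro N' c h
    constructor
    · simp only [B2]
      linear_combination (M 1 1) * h 0 - (M 1 0) * h 1 + N' 1 1 * hMv 0 - N' 1 0 * hMv 1
    · simp only [B2]
      linear_combination (M 0 0) * h 1 - (M 0 1) * h 0 + N' 0 0 * hMv 1 - N' 0 1 * hMv 0
  obtain ⟨g1, g2⟩ := gen N e hNv
  rw [hB, mul_zero] at g1 g2
  have k1 : M 1 1 * g 0 - M 1 0 * g 1 = 0 := by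
    rcases mul_eq_zero.1 g1.symm with h | h
    · exact absurd h hne
    · exact h
  have k2 : M 0 0 * g 1 - M 0 1 * g 0 = 0 := by
    rcases mul_eq_zero.1 g2.symm with h | h
    · exact absurd h hne
    · exact h
  have hk : ∀ k, B2 (m k) M = 0 := by
    intro k
    obtain ⟨q1, q2⟩ := gen (m k) (a k) (hm k)
    rw [k1, mul_zero] at q1
    rw [k2, mul_zero] at q2
    rcases ne_zero_two hv with h | h
    · exact (mul_eq_zero.1 q1).resolve_left h
    · exact (mul_eq_zero.1 q2).resolve_left h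
  have e0 : 2 * a 1 * det2 (m 0) - a 0 * B2 (m 0) (m 1) = 0 := by
    have := hk 0
    simp only [B2, hM, det2] at this ⊢
    linear_combination this
  have e1 : a 1 * B2 (m 0) (m 1) - 2 * a 0 * det2 (m 1) = 0 := by
    have := hk 1
    simp only [B2, hM, det2] at this ⊢
    linear_combination this
  have f1 : a 1 * D2 (m 0) (m 1) = 0 := by
    unfold D2
    linear_combination B2 (m 0) (m 1) * e1 - 2 * det2 (m 1) * e0
  have f2 : a 0 * D2 (m 0) (m 1) = 0 := by
    unfold D2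
    linear_combination -(B2 (m 0) (m 1)) * e0 + 2 * det2 (m 0) * e1
  rcases ne_zero_two ha with h | h
  · exact hD ((mul_eq_zero.1 f2).resolve_left h)
  · exact hD ((mul_eq_zero.1 f1).resolve_left h)

theorem B2_transpose (A A' : Fin 2 → Fin 2 → F) :
    B2 (fun i j => A j i) (fun i j => A' j i) = B2 A A' := by
  simp only [B2]; ring

theorem det2_transpose (A : Fin 2 → Fin 2 → F) : det2 (fun i j => A j i) = det2 A := by
  simp only [det2]; ring

theorem D2_transpose (A A' : Fin 2 → Fin 2 → F) :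
    D2 (fun i j => A j i) (fun i j => A' j i) = D2 A A' := by
  simp only [D2, B2_transpose, det2_transpose]

/-- **universal vector, nonzero discriminant** -/
theorem UX1 (m : Fin 2 → Fin 2 → Fin 2 → F) (n : Fin 2 → Fin 2 → F)
    (hD : D2 (m 0) (m 1) ≠ 0) : ∃ s, UX m n s := by
  -- solve the linear system
  set D := D2 (m 0) (m 1) with hDdef
  set b := B2 (m 0) (m 1) with hb
  set p := B2 n (m 0) with hp
  set q := B2 n (m 1) with hq
  -- `p + 2 s0 det m0 + s1 b = 0`, `q + s0 b + 2 s1 det m1 = 0`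
  let s : Fin 2 → F := ![(2 * det2 (m 1) * p - b * q) / D, (2 * det2 (m 0) * q - b * p) / D]
  have hs0 : s 0 = (2 * det2 (m 1) * p - b * q) / D := rfl
  have hs1 : s 1 = (2 * det2 (m 0) * q - b * p) / D := rfl
  have hDe : D = b ^ 2 - 4 * det2 (m 0) * det2 (m 1) := rfl
  have h0 : B2 (fun i j => n i j + s 0 * m 0 i j + s 1 * m 1 i j) (m 0) = 0 := by
    have e : B2 (fun i j => n i j + s 0 * m 0 i j + s 1 * m 1 i j) (m 0)
        = p + s 0 * (2 * det2 (m 0)) + s 1 * b := by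
      simp only [hp, hb, B2, det2]; ring
    rw [e, hs0, hs1]
    field_simp
    rw [hDe]
    ring
  have h1 : B2 (fun i j => n i j + s 0 * m 0 i j + s 1 * m 1 i j) (m 1) = 0 := by
    have e : B2 (fun i j => n i j + s 0 * m 0 i j + s 1 * m 1 i j) (m 1)
        = q + s 0 * b + s 1 * (2 * det2 (m 1)) := by
      simp only [hq, hb, B2, det2]; ring
    rw [e, hs0, hs1]
    field_simp
    rw [hDe]
    ring
  refine ⟨s, ⟨fun t ht => ?_, ?_, ?_⟩⟩
  · have t0 : B2 (fun i j => n i j + t 0 * m 0 i j + t 1 * m 1 i j) (m 0) = 0 := by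
      simp only [B2, ht]; ring
    have t1 : B2 (fun i j => n i j + t 0 * m 0 i j + t 1 * m 1 i j) (m 1) = 0 := by
      simp only [B2, ht]; ring
    have e0 : (s 0 - t 0) * (2 * det2 (m 0)) + (s 1 - t 1) * b = 0 := by
      simp only [B2, det2, hb] at h0 t0 ⊢
      linear_combination h0 - t0
    have e1 : (s 0 - t 0) * b + (s 1 - t 1) * (2 * det2 (m 1)) = 0 := by
      simp only [B2, det2, hb] at h1 t1 ⊢
      linear_combination h1 - t1
    have f0 : (s 0 - t 0) * D = 0 := by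
      rw [hDe]
      linear_combination b * e1 - 2 * det2 (m 1) * e0
    have f1 : (s 1 - t 1) * D = 0 := by
      rw [hDe]
      linear_combination b * e0 - 2 * det2 (m 0) * e1
    funext i
    fin_cases i
    · exact sub_eq_zero.1 ((mul_eq_zero.1 f0).resolve_right hD)
    · exact sub_eq_zero.1 ((mul_eq_zero.1 f1).resolve_right hD)
  · intro v a a0 g hv ha hn hm
    exact UX1_B m n hD s h0 h1 v a a0 g hv ha hn hm
  · intro w a a0 g hw ha hn hm
    refine UX1_B (fun k i j => m k j i) (fun i j => n j i) ?_ s ?_ ?_ w a a0 g hw ha hn hm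
    · rw [D2_transpose]; exact hD
    · rw [← h0, ← B2_transpose (fun i j => n i j + s 0 * m 0 i j + s 1 * m 1 i j) (m 0)]
    · rw [← h1, ← B2_transpose (fun i j => n i j + s 0 * m 0 i j + s 1 * m 1 i j) (m 1)]

theorem SL1_transpose {m : Fin 2 → Fin 2 → Fin 2 → F} (h : SL1 (fun k i j => m k j i)) : SL1 m := by
  rcases h with ⟨a, g, h⟩ | ⟨b, g, h⟩ | ⟨c, g, h⟩
  · exact Or.inl ⟨a, fun i j => g j i, fun k i j => h k j i⟩
  · exact Or.inr (Or.inr ⟨b, g, fun k i j => h k j i⟩)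
  · exact Or.inr (Or.inl ⟨c, g, fun k i j => h k j i⟩)

theorem UX.transpose {m : Fin 2 → Fin 2 → Fin 2 → F} {n : Fin 2 → Fin 2 → F} {s : Fin 2 → F}
    (h : UX (fun k i j => m k j i) (fun i j => n j i) s) : UX m n s :=
  ⟨fun t ht => h.A t fun i j => ht j i, h.C, h.B⟩

/-- a matrix with a kernel vector on the left has zero determinant -/
theorem det2_eq_zero {A : Fin 2 → Fin 2 → F} {v : Fin 2 → F} (hv : v ≠ 0)
    (h : ∀ j, v 0 * A 0 j + v 1 * A 1 j = 0) : det2 A = 0 := by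
  unfold det2
  rcases ne_zero_two hv with h' | h'
  · rw [← mul_right_inj' h', mul_zero]
    linear_combination A 1 1 * h 0 - A 1 0 * h 1
  · rw [← mul_right_inj' h', mul_zero]
    linear_combination A 0 0 * h 1 - A 0 1 * h 0

theorem det2_eq_zero' {A : Fin 2 → Fin 2 → F} {w : Fin 2 → F} (hw : w ≠ 0)
    (h : ∀ i, w 0 * A i 0 + w 1 * A i 1 = 0) : det2 A = 0 := by
  rw [← det2_transpose]
  exact det2_eq_zero hw h

theorem rank_one {A : Fin 2 → Fin 2 → F} (h : det2 A = 0) :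
    ∃ p q : Fin 2 → F, ∀ i j, A i j = p i * q j := by
  unfold det2 at h
  by_cases h0 : A 0 0 = 0 ∧ A 0 1 = 0
  · refine ⟨![0, 1], fun j => A 1 j, fun i j => ?_⟩
    fin_cases i <;> fin_cases j <;> simp [h0.1, h0.2]
  · by_cases h00 : A 0 0 = 0
    · have h01 : A 0 1 ≠ 0 := fun h' => h0 ⟨h00, h'⟩
      have h10 : A 1 0 = 0 := by
        rw [h00] at h
        have : A 0 1 * A 1 0 = 0 := by linear_combination -h
        exact (mul_eq_zero.1 this).resolve_left h01
      refine ⟨![1, A 1 1 / A 0 1], fun j => A 0 j, fun i j => ?_⟩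
      fin_cases i <;> fin_cases j <;> simp [h00, h10, h01]
    · refine ⟨![1, A 1 0 / A 0 0], fun j => A 0 j, fun i j => ?_⟩
      have h11 : A 1 1 = A 1 0 / A 0 0 * A 0 1 := by
        field_simp
        linear_combination h
      fin_cases i <;> fin_cases j <;> simp [h00, h11]

/-- parallel vectors -/
theorem parallel {p p' : Fin 2 → F} (h : p 0 * p' 1 - p 1 * p' 0 = 0) :
    ∃ (b : Fin 2 → F) (x y : F), (∀ i, p i = b i * x) ∧ ∀ i, p' i = b i * y := by
  by_cases hp : p = 0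
  · refine ⟨p', 0, 1, fun i => by simp [hp], fun i => by simp⟩
  rcases ne_zero_two hp with h0 | h0
  · refine ⟨p, 1, p' 0 / p 0, fun i => by simp, fun i => ?_⟩
    fin_cases i
    · simp; field_simp
    · simp; field_simp; linear_combination h
  · refine ⟨p, 1, p' 1 / p 1, fun i => by simp, fun i => ?_⟩
    fin_cases i
    · simp; field_simp; linear_combination -h
    · simp; field_simp

/-- the combination `u 0 * m 0 + u 1 * m 1` -/
def cmb (m : Fin 2 → Fin 2 → Fin 2 → F) (u : Fin 2 → F) : Fin 2 → Fin 2 → F :=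
  fun i j => u 0 * m 0 i j + u 1 * m 1 i j

theorem SL1_of_dep {m : Fin 2 → Fin 2 → Fin 2 → F} {u : Fin 2 → F} (hu : u ≠ 0)
    (h : ∀ i j, cmb m u i j = 0) : SL1 m := by
  unfold cmb at h
  rcases ne_zero_two hu with h0 | h0
  · refine Or.inl ⟨![- u 1 / u 0, 1], m 1, fun k i j => ?_⟩
    fin_cases k
    · simp
      field_simp
      linear_combination h i j
    · simp
  · refine Or.inl ⟨![1, - u 0 / u 1], m 0, fun k i j => ?_⟩
    fin_cases k
    · simp
    · simp
      field_simp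
      linear_combination h i j

theorem SL1_of_dep_y {m : Fin 2 → Fin 2 → Fin 2 → F} {v : Fin 2 → F} (hv : v ≠ 0)
    (h : ∀ k j, v 0 * m k 0 j + v 1 * m k 1 j = 0) : SL1 m := by
  rcases ne_zero_two hv with h0 | h0
  · refine Or.inr (Or.inl ⟨![- v 1 / v 0, 1], fun k j => m k 1 j, fun k i j => ?_⟩)
    fin_cases i
    · simp
      field_simp
      linear_combination h k j
    · simp
  · refine Or.inr (Or.inl ⟨![1, - v 0 / v 1], fun k j => m k 0 j, fun k i j => ?_⟩)
    fin_cases i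
    · simp
    · simp
      field_simp
      linear_combination h k j

theorem root_unique {m : Fin 2 → Fin 2 → Fin 2 → F} (hm : ¬ SL1 m) (hD : D2 (m 0) (m 1) = 0)
    {u u' : Fin 2 → F} (hu : det2 (cmb m u) = 0) (huu : u 0 * u' 1 - u 1 * u' 0 ≠ 0) :
    det2 (cmb m u') ≠ 0 := by
  intro hu'
  apply hm
  have hB : B2 (cmb m u) (cmb m u') = 0 := by
    have e : B2 (cmb m u) (cmb m u') ^ 2 = D2 (cmb m u) (cmb m u') := by
      unfold D2; rw [hu]; ring
    have e2 : D2 (cmb m u) (cmb m u') = (u 0 * u' 1 - u 1 * u' 0) ^ 2 * D2 (m 0) (m 1) := by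
      simp only [D2, B2, det2, cmb]; ring
    rw [e2, hD, mul_zero] at e
    exact pow_eq_zero_iff (two_ne_zero) |>.1 e
  obtain ⟨p, q, hpq⟩ := rank_one hu
  obtain ⟨p', q', hpq'⟩ := rank_one hu'
  have hmul : (p 0 * p' 1 - p 1 * p' 0) * (q 0 * q' 1 - q 1 * q' 0) = 0 := by
    rw [← hB]
    simp only [B2, hpq, hpq']
    ring
  -- recover `m` from the two combinations
  have r0 : ∀ i j, m 0 i j = (u 0 * u' 1 - u 1 * u' 0)⁻¹ *
      (u' 1 * cmb m u i j - u 1 * cmb m u' i j) := by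
    intro i j
    rw [eq_inv_mul_iff_mul_eq₀ huu]
    simp only [cmb]; ring
  have r1 : ∀ i j, m 1 i j = (u 0 * u' 1 - u 1 * u' 0)⁻¹ *
      (u 0 * cmb m u' i j - u' 0 * cmb m u i j) := by
    intro i j
    rw [eq_inv_mul_iff_mul_eq₀ huu]
    simp only [cmb]; ring
  rcases mul_eq_zero.1 hmul with h | h
  · obtain ⟨b, x, y, hx, hy⟩ := parallel h
    refine Or.inr (Or.inl ⟨b, fun k j => (u 0 * u' 1 - u 1 * u' 0)⁻¹ *
      (if k = 0 then u' 1 * (x * q j) - u 1 * (y * q' j) else u 0 * (y * q' j) - u' 0 * (x * q j)),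
      fun k i j => ?_⟩)
    fin_cases k
    · simp only [Fin.zero_eta, if_true]
      rw [r0, hpq, hpq', hx, hy]; ring
    · simp only [Fin.mk_one, if_neg (one_ne_zero : (1 : Fin 2) ≠ 0)]
      rw [r1, hpq, hpq', hx, hy]; ring
  · obtain ⟨b, x, y, hx, hy⟩ := parallel h
    refine Or.inr (Or.inr ⟨b, fun k i => (u 0 * u' 1 - u 1 * u' 0)⁻¹ *
      (if k = 0 then u' 1 * (x * p i) - u 1 * (y * p' i) else u 0 * (y * p' i) - u' 0 * (x * p i)),
      fun k i j => ?_⟩)
    fin_cases k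
    · simp only [Fin.zero_eta, if_true]
      rw [r0, hpq, hpq', hx, hy]; ring
    · simp only [Fin.mk_one, if_neg (one_ne_zero : (1 : Fin 2) ≠ 0)]
      rw [r1, hpq, hpq', hx, hy]; ring

/-- the functionals of two data are proportional -/
theorem func_par {m : Fin 2 → Fin 2 → Fin 2 → F} (hm : ¬ SL1 m) (hD : D2 (m 0) (m 1) = 0)
    {a a' : Fin 2 → F} (h : det2 (cmb m ![a 1, - a 0]) = 0) (h' : det2 (cmb m ![a' 1, - a' 0]) = 0) :
    a 0 * a' 1 - a 1 * a' 0 = 0 := by
  by_contra hne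
  refine root_unique hm hD h (u' := ![a' 1, - a' 0]) ?_ h'
  simp
  intro h3
  apply hne
  linear_combination h3

theorem par_scale {a a' : Fin 2 → F} (ha : a ≠ 0) (h : a 0 * a' 1 - a 1 * a' 0 = 0) :
    ∃ c : F, ∀ k, a' k = c * a k := by
  rcases ne_zero_two ha with h0 | h0
  · refine ⟨a' 0 / a 0, fun k => ?_⟩
    fin_cases k
    · simp; field_simp
    · simp; field_simp; linear_combination h
  · refine ⟨a' 1 / a 1, fun k => ?_⟩
    fin_cases k
    · simp; field_simp; linear_combination -h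
    · simp; field_simp

theorem det_datum {m : Fin 2 → Fin 2 → Fin 2 → F} {v a g : Fin 2 → F} (hv : v ≠ 0)
    (h : ∀ k j, v 0 * m k 0 j + v 1 * m k 1 j = a k * g j) :
    (∀ j, v 0 * cmb m ![a 1, - a 0] 0 j + v 1 * cmb m ![a 1, - a 0] 1 j = 0) ∧
    det2 (cmb m ![a 1, - a 0]) = 0 := by
  have key : ∀ j, v 0 * cmb m ![a 1, - a 0] 0 j + v 1 * cmb m ![a 1, - a 0] 1 j = 0 := by
    intro j
    simp only [cmb, Matrix.cons_val_zero, Matrix.cons_val_one]
    linear_combination a 1 * h 0 j - a 0 * h 1 j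
  exact ⟨key, det2_eq_zero hv key⟩

theorem UX2_A {m : Fin 2 → Fin 2 → Fin 2 → F} (hm : ¬ SL1 m) {n : Fin 2 → Fin 2 → F}
    {t : Fin 2 → F} (ht : ∀ i j, n i j + t 0 * m 0 i j + t 1 * m 1 i j = 0) : UX m n t := by
  have key : ∀ (v a : Fin 2 → F) (a0 : F) (g : Fin 2 → F) (m' : Fin 2 → Fin 2 → Fin 2 → F)
      (n' : Fin 2 → Fin 2 → F), ¬ SL1 m' →
      (∀ i j, n' i j + t 0 * m' 0 i j + t 1 * m' 1 i j = 0) → v ≠ 0 →
      (∀ j, v 0 * n' 0 j + v 1 * n' 1 j = a0 * g j) →
      (∀ k j, v 0 * m' k 0 j + v 1 * m' k 1 j = a k * g j) → a0 + t 0 * a 0 + t 1 * a 1 = 0 := by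
    intro v a a0 g m' n' hm' ht' hv hn hk
    have e : ∀ j, (a0 + t 0 * a 0 + t 1 * a 1) * g j = 0 := by
      intro j
      linear_combination v 0 * ht' 0 j + v 1 * ht' 1 j - hn j - t 0 * hk 0 j - t 1 * hk 1 j
    by_contra hne
    have hg : ∀ j, g j = 0 := fun j => (mul_eq_zero.1 (e j)).resolve_left hne
    exact hm' (SL1_of_dep_y hv fun k j => by rw [hk, hg, mul_zero])
  refine ⟨fun t' ht' => ?_, fun v a a0 g hv _ hn hk => key v a a0 g m n hm ht hv hn hk,
    fun w a a0 g hw _ hn hk => key w a a0 g (fun k i j => m k j i) (fun i j => n j i)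
      (fun h => hm (SL1_transpose h)) (fun i j => ht j i) hw hn hk⟩
  by_contra hne
  apply hm
  refine SL1_of_dep (u := t - t') (sub_ne_zero.2 hne) fun i j => ?_
  simp only [cmb, Pi.sub_apply]
  linear_combination ht i j - ht' i j

theorem UX2_B {m : Fin 2 → Fin 2 → Fin 2 → F} (hm : ¬ SL1 m) (hD : D2 (m 0) (m 1) = 0)
    {n : Fin 2 → Fin 2 → F} (hD' : ∀ k, D2 n (m k) = 0)
    (hA : ¬ ∃ t : Fin 2 → F, ∀ i j, n i j + t 0 * m 0 i j + t 1 * m 1 i j = 0)
    {v a : Fin 2 → F} {a0 : F} {g : Fin 2 → F} (hv : v ≠ 0) (ha : a ≠ 0)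
    (hn : ∀ j, v 0 * n 0 j + v 1 * n 1 j = a0 * g j)
    (hmk : ∀ k j, v 0 * m k 0 j + v 1 * m k 1 j = a k * g j) : ∃ s, UX m n s := by
  classical
  obtain ⟨k, hk⟩ : ∃ k, a k ≠ 0 := by
    rcases ne_zero_two ha with h | h
    exacts [⟨0, h⟩, ⟨1, h⟩]
  set s : Fin 2 → F := Pi.single k (- a0 / a k) with hs
  have hsum : ∀ f : Fin 2 → F, s 0 * f 0 + s 1 * f 1 = (- a0 / a k) * f k := by
    intro f
    fin_cases k
    · simp [hs]
    · simp [hs]
  have hsa : a0 + s 0 * a 0 + s 1 * a 1 = 0 := by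
    have := hsum a
    rw [add_assoc, this]
    field_simp
    ring
  obtain ⟨huv, hu⟩ := det_datum hv hmk
  have hmkdet : det2 (m k) ≠ 0 := by
    have h1 := root_unique hm hD hu (u' := Pi.single k 1) ?_
    · have e : cmb m (Pi.single k 1) = m k := by
        funext i j
        fin_cases k <;> simp [cmb]
      rwa [e] at h1
    · fin_cases k
      · simpa using hk
      · simpa using hk
  refine ⟨s, fun t ht => absurd ⟨t, ht⟩ hA, ?_, ?_⟩
  · intro v' a' a0' g' hv' ha' hn' hmk'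
    obtain ⟨huv', hu'⟩ := det_datum hv' hmk'
    have hpar := func_par hm hD hu hu'
    obtain ⟨c, hc⟩ := par_scale ha hpar
    have hc0 : c ≠ 0 := by
      rintro rfl
      apply ha'
      funext k
      rw [hc]; simp
    -- `v` and `v'` are parallel
    have hvv : v 0 * v' 1 - v 1 * v' 0 = 0 := by
      by_contra hne
      apply hm
      refine SL1_of_dep (u := ![a 1, - a 0]) ?_ fun i j => ?_
      · intro h
        apply ha
        have h0 := congrFun h 0
        have h1 := congrFun h 1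
        simp at h0 h1
        funext i
        fin_cases i
        · exact h1
        · exact h0
      · have e1 := huv j
        have e2 : v' 0 * cmb m ![a 1, - a 0] 0 j + v' 1 * cmb m ![a 1, - a 0] 1 j = 0 := by
          have := huv' j
          simp only [cmb, Matrix.cons_val_zero, Matrix.cons_val_one, hc] at this ⊢
          rw [← mul_right_inj' hc0, mul_zero]
          linear_combination this
        fin_cases i
        · rw [← mul_right_inj' hne, mul_zero]
          simp only [Fin.zero_eta]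
          linear_combination v' 1 * e1 - v 1 * e2
        · rw [← mul_right_inj' hne, mul_zero]
          simp only [Fin.mk_one]
          linear_combination v 0 * e2 - v' 0 * e1
    obtain ⟨d, hd⟩ := par_scale hv hvv
    have e : ∀ j, (a0' + s 0 * a' 0 + s 1 * a' 1) * g' j
        = d * ((a0 + s 0 * a 0 + s 1 * a 1) * g j) := by
      intro j
      have h1 := hn' j
      have h2 := hmk' 0 j
      have h3 := hmk' 1 j
      rw [hd, hd] at h1 h2 h3
      linear_combination -h1 - s 0 * h2 - s 1 * h3 + d * (hn j + s 0 * hmk 0 j + s 1 * hmk 1 j)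
    rw [hsa] at e
    by_contra hne
    have hg : ∀ j, g' j = 0 := fun j => by
      have := e j
      rw [zero_mul, mul_zero] at this
      exact (mul_eq_zero.1 this).resolve_left hne
    exact hm (SL1_of_dep_y hv' fun k j => by rw [hmk', hg, mul_zero])
  · intro w a' a0' g' hw ha' hn' hmk'
    obtain ⟨_, hu'⟩ := det_datum (m := fun k i j => m k j i) hw hmk'
    have hu'' : det2 (cmb m ![a' 1, - a' 0]) = 0 := by
      rw [← det2_transpose]; exact hu'
    have hpar := func_par hm hD hu hu''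
    obtain ⟨c, hc⟩ := par_scale ha hpar
    have hc0 : c ≠ 0 := by
      rintro rfl
      apply ha'
      funext k
      rw [hc]; simp
    have hk' : a' k ≠ 0 := by
      rw [hc]; exact mul_ne_zero hc0 hk
    -- the matrices `N`, `N'`
    set σ := - a0 / a k with hσ
    set σ' := - a0' / a' k with hσ'
    have hN : det2 (fun i j => n i j + σ * m k i j) = 0 := by
      refine det2_eq_zero hv fun j => ?_
      have h1 := hn j
      have h2 := hmk k j
      have h3 : a0 + σ * a k = 0 := by rw [hσ]; field_simp; ring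
      linear_combination h1 + σ * h2 + g j * h3
    have hN' : det2 (fun i j => n i j + σ' * m k i j) = 0 := by
      refine det2_eq_zero' hw fun j => ?_
      have h1 := hn' j
      have h2 := hmk' k j
      have h3 : a0' + σ' * a' k = 0 := by rw [hσ']; field_simp; ring
      linear_combination h1 + σ' * h2 + g' j * h3
    have hB : B2 (fun i j => n i j + σ * m k i j) (m k) = 0 := by
      have e2 : D2 (fun i j => n i j + σ * m k i j) (m k) = D2 n (m k) := by
        simp only [D2, B2, det2]; ring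
      have e3 : B2 (fun i j => n i j + σ * m k i j) (m k) ^ 2 = 0 := by
        rw [hD' k] at e2
        unfold D2 at e2
        rw [hN] at e2
        linear_combination e2
      exact pow_eq_zero_iff (two_ne_zero) |>.1 e3
    have hcc : (σ' - σ) ^ 2 * det2 (m k) = 0 := by
      have e : det2 (fun i j => n i j + σ' * m k i j) = det2 (fun i j => n i j + σ * m k i j)
          + (σ' - σ) * B2 (fun i j => n i j + σ * m k i j) (m k) + (σ' - σ) ^ 2 * det2 (m k) := by
        simp only [B2, det2]; ring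
      rw [hN', hN, hB] at e
      linear_combination -e
    have hσσ : σ' = σ := by
      have := (mul_eq_zero.1 hcc).resolve_right hmkdet
      exact sub_eq_zero.1 (pow_eq_zero_iff (two_ne_zero) |>.1 this)
    have := hsum a'
    rw [add_assoc, this, ← hσσ, hσ']
    field_simp
    ring

theorem UX2 {m : Fin 2 → Fin 2 → Fin 2 → F} (hm : ¬ SL1 m) (hD : D2 (m 0) (m 1) = 0)
    {n : Fin 2 → Fin 2 → F} (hD' : ∀ k, D2 n (m k) = 0) : ∃ s, UX m n s := by
  by_cases hA : ∃ t : Fin 2 → F, ∀ i j, n i j + t 0 * m 0 i j + t 1 * m 1 i j = 0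
  · obtain ⟨t, ht⟩ := hA
    exact ⟨t, UX2_A hm ht⟩
  by_cases hB : ∃ (v a : Fin 2 → F) (a0 : F) (g : Fin 2 → F), v ≠ 0 ∧ a ≠ 0 ∧
    (∀ j, v 0 * n 0 j + v 1 * n 1 j = a0 * g j) ∧
    (∀ k j, v 0 * m k 0 j + v 1 * m k 1 j = a k * g j)
  · obtain ⟨v, a, a0, g, hv, ha, hn, hk⟩ := hB
    exact UX2_B hm hD hD' hA hv ha hn hk
  by_cases hC : ∃ (w a : Fin 2 → F) (a0 : F) (g : Fin 2 → F), w ≠ 0 ∧ a ≠ 0 ∧
    (∀ i, w 0 * n i 0 + w 1 * n i 1 = a0 * g i) ∧
    (∀ k i, w 0 * m k i 0 + w 1 * m k i 1 = a k * g i)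
  · obtain ⟨w, a, a0, g, hw, ha, hn, hk⟩ := hC
    obtain ⟨s, hs⟩ := UX2_B (m := fun k i j => m k j i) (n := fun i j => n j i)
      (fun h => hm (SL1_transpose h)) (by rw [D2_transpose]; exact hD)
      (fun k => by rw [D2_transpose]; exact hD' k)
      (fun ⟨t, ht⟩ => hA ⟨t, fun i j => ht j i⟩) hw ha hn hk
    exact ⟨s, hs.transpose⟩
  · refine ⟨0, fun t ht => absurd ⟨t, ht⟩ hA, fun v a a0 g hv ha hn hk =>
      absurd ⟨v, a, a0, g, hv, ha, hn, hk⟩ hB, fun w a a0 g hw ha hn hk =>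
      absurd ⟨w, a, a0, g, hw, ha, hn, hk⟩ hC⟩

theorem solve_two {α : Fin 2 → Fin 2 → F} (h : det2 α ≠ 0) (β : Fin 2 → F) :
    ∃ t : Fin 2 → F, ∀ l, β l + t 0 * α l 0 + t 1 * α l 1 = 0 := by
  refine ⟨![(α 0 1 * β 1 - α 1 1 * β 0) / det2 α, (α 1 0 * β 0 - α 0 0 * β 1) / det2 α],
    fun l => ?_⟩
  simp only [Matrix.cons_val_zero, Matrix.cons_val_one]
  fin_cases l
  · simp only [Fin.zero_eta]
    field_simp
    simp only [det2]; ring
  · simp only [Fin.mk_one]
    field_simp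
    simp only [det2]; ring

theorem perp_ne {b : Fin 2 → F} (h : b ≠ 0) : (![b 1, - b 0] : Fin 2 → F) ≠ 0 := by
  intro h'
  apply h
  have h0 := congrFun h' 0
  have h1 := congrFun h' 1
  simp at h0 h1
  funext i
  fin_cases i
  · exact h1
  · exact h0

theorem tildeX {m : Fin 2 → Fin 2 → Fin 2 → F} (hm : ¬ SL1 m) {n : Fin 2 → Fin 2 → F}
    {s : Fin 2 → F} (hs : UX m n s) {p q r : ℕ} (hpqr : p + q + r < 3)
    (a0 : Fin p → F) (a : Fin p → Fin 2 → F) (g : Fin p → Fin 2 → Fin 2 → F)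
    (b : Fin q → Fin 2 → F) (h0 : Fin q → Fin 2 → F) (h : Fin q → Fin 2 → Fin 2 → F)
    (c : Fin r → Fin 2 → F) (e0 : Fin r → Fin 2 → F) (e : Fin r → Fin 2 → Fin 2 → F)
    (hn : ∀ i j, n i j = ∑ l, a0 l * g l i j + ∑ l, b l i * h0 l j + ∑ l, c l j * e0 l i)
    (hmm : ∀ k i j, m k i j = ∑ l, a l k * g l i j + ∑ l, b l i * h l k j
      + ∑ l, c l j * e l k i) (l : Fin p) : a0 l + s 0 * a l 0 + s 1 * a l 1 = 0 := by
  have hp : p = 0 ∨ p = 1 ∨ p = 2 := by omega
  have hq : q = 0 ∨ q = 1 ∨ q = 2 := by omega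
  have hr : r = 0 ∨ r = 1 ∨ r = 2 := by omega
  rcases hp with rfl | rfl | rfl
  · exact l.elim0
  · -- `p = 1`
    obtain rfl : l = 0 := Subsingleton.elim _ _
    rcases hq with rfl | rfl | rfl
    · rcases hr with rfl | rfl | rfl
      · exfalso
        apply hm
        refine Or.inl ⟨a 0, g 0, fun k i j => ?_⟩
        rw [hmm]; simp
      · simp only [Finset.univ_eq_empty, Finset.sum_empty, Fin.sum_univ_one, Fin.isValue,
          add_zero] at hn hmm
        have hc : c 0 ≠ 0 := by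
          intro hc
          exact hm (Or.inl ⟨a 0, g 0, fun k i j => by rw [hmm, hc]; simp⟩)
        have ha : a 0 ≠ 0 := by
          intro ha
          exact hm (Or.inr (Or.inr ⟨c 0, e 0, fun k i j => by rw [hmm, ha]; simp⟩))
        refine hs.C ![c 0 1, - c 0 0] (a 0) (a0 0)
          (fun i => c 0 1 * g 0 i 0 - c 0 0 * g 0 i 1) (perp_ne hc) ha ?_ ?_
        · intro i
          simp only [Matrix.cons_val_zero, Matrix.cons_val_one]
          rw [hn, hn]; ring
        · intro k i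
          simp only [Matrix.cons_val_zero, Matrix.cons_val_one]
          rw [hmm, hmm]; ring
      · omega
    · obtain rfl : r = 0 := by omega
      simp only [Finset.univ_eq_empty, Finset.sum_empty, Fin.sum_univ_one, Fin.isValue,
        add_zero] at hn hmm
      have hb : b 0 ≠ 0 := by
        intro hb
        exact hm (Or.inl ⟨a 0, g 0, fun k i j => by rw [hmm, hb]; simp⟩)
      have ha : a 0 ≠ 0 := by
        intro ha
        exact hm (Or.inr (Or.inl ⟨b 0, h 0, fun k i j => by rw [hmm, ha]; simp⟩))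
      refine hs.B ![b 0 1, - b 0 0] (a 0) (a0 0)
        (fun j => b 0 1 * g 0 0 j - b 0 0 * g 0 1 j) (perp_ne hb) ha ?_ ?_
      · intro j
        simp only [Matrix.cons_val_zero, Matrix.cons_val_one]
        rw [hn, hn]; ring
      · intro k j
        simp only [Matrix.cons_val_zero, Matrix.cons_val_one]
        rw [hmm, hmm]; ring
    · omega
  · -- `p = 2`
    obtain rfl : q = 0 := by omega
    obtain rfl : r = 0 := by omega
    simp only [Finset.univ_eq_empty, Finset.sum_empty, Fin.sum_univ_two, Fin.isValue,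
      add_zero] at hn hmm
    have hdet : det2 a ≠ 0 := by
      intro hdet
      obtain ⟨P, Q, hPQ⟩ := rank_one hdet
      exact hm (Or.inl ⟨Q, fun i j => P 0 * g 0 i j + P 1 * g 1 i j, fun k i j => by
        rw [hmm, hPQ, hPQ]; ring⟩)
    obtain ⟨t, ht⟩ := solve_two hdet a0
    have hst : s = t := hs.A t fun i j => by
      rw [hn, hmm, hmm]
      linear_combination g 0 i j * ht 0 + g 1 i j * ht 1
    rw [hst]
    exact ht l

theorem D2_of_SL1 {m : Fin 2 → Fin 2 → Fin 2 → F} (h : SL1 m) : D2 (m 0) (m 1) = 0 := by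
  rcases h with ⟨a, g, h⟩ | ⟨b, g, h⟩ | ⟨c, g, h⟩
  all_goals
    simp only [D2, B2, det2, h]
    ring

end alg

section asm

variable {F : Type*} [Field F] {X Y Z : Type*}

/-- slice rank less than `k` on the box `A × B × C` -/
def SLT (A : Set X) (B : Set Y) (C : Set Z) (T : X → Y → Z → F) (k : ℕ) : Prop :=
  ∃ p q r : ℕ, p + q + r < k ∧ ∃ (a : Fin p → X → F) (g : Fin p → Y → Z → F)
    (b : Fin q → Y → F) (h : Fin q → X → Z → F) (c : Fin r → Z → F) (e : Fin r → X → Y → F),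
    ∀ x ∈ A, ∀ y ∈ B, ∀ z ∈ C, T x y z
      = ∑ i, a i x * g i y z + ∑ i, b i y * h i x z + ∑ i, c i z * e i x y

theorem sum_tilde {ι : Type*} [Fintype ι] (w : Fin 3 → F) (a : ι → Fin 3 → F)
    (ha : ∀ l, ∑ i, w i * a l i = 0) (G : ι → F) : ∑ i, w i * ∑ l, a l i * G l = 0 := by
  simp_rw [Finset.mul_sum]
  rw [Finset.sum_comm]
  refine Finset.sum_eq_zero fun l _ => ?_
  have : ∑ i, w i * (a l i * G l) = (∑ i, w i * a l i) * G l := by
    rw [Finset.sum_mul]
    exact Finset.sum_congr rfl fun i _ => by ring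
  rw [this, ha, zero_mul]

/-- with universal vectors in the three directions, the corner vanishes -/
theorem corner (T : X → Y → Z → F) (x : Fin 2 → X) (y : Fin 2 → Y) (z : Fin 2 → Z)
    (hm : ¬ SL1 fun k i j => T (x k) (y i) (z j)) (ξ : X) (η : Y) (ζ : Z)
    (hT : SLT (Set.range ![ξ, x 0, x 1]) (Set.range ![η, y 0, y 1])
      (Set.range ![ζ, z 0, z 1]) T 3)
    {s s' s'' : Fin 2 → F}
    (hs : UX (fun k i j => T (x k) (y i) (z j)) (fun i j => T ξ (y i) (z j)) s)
    (hs' : UX (fun i k j => T (x k) (y i) (z j)) (fun k j => T (x k) η (z j)) s')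
    (hs'' : UX (fun j k i => T (x k) (y i) (z j)) (fun k i => T (x k) (y i) ζ) s'') :
    ∑ i, ∑ j, ∑ k, (![1, s 0, s 1] : Fin 3 → F) i * (![1, s' 0, s' 1] : Fin 3 → F) j *
      (![1, s'' 0, s'' 1] : Fin 3 → F) k *
      T (![ξ, x 0, x 1] i) (![η, y 0, y 1] j) (![ζ, z 0, z 1] k) = 0 := by
  obtain ⟨p, q, r, hpqr, a, g, b, h, c, e, H⟩ := hT
  have mx : ∀ k : Fin 2, x k ∈ Set.range ![ξ, x 0, x 1] := by
    intro k
    fin_cases k
    · exact ⟨1, rfl⟩
    · exact ⟨2, rfl⟩
  have my : ∀ k : Fin 2, y k ∈ Set.range ![η, y 0, y 1] := by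
    intro k
    fin_cases k
    · exact ⟨1, rfl⟩
    · exact ⟨2, rfl⟩
  have mz : ∀ k : Fin 2, z k ∈ Set.range ![ζ, z 0, z 1] := by
    intro k
    fin_cases k
    · exact ⟨1, rfl⟩
    · exact ⟨2, rfl⟩
  have mξ : ξ ∈ Set.range ![ξ, x 0, x 1] := ⟨0, rfl⟩
  have mη : η ∈ Set.range ![η, y 0, y 1] := ⟨0, rfl⟩
  have mζ : ζ ∈ Set.range ![ζ, z 0, z 1] := ⟨0, rfl⟩
  have ta : ∀ l, a l ξ + s 0 * a l (x 0) + s 1 * a l (x 1) = 0 :=
    tildeX hm hs hpqr (fun l => a l ξ) (fun l k => a l (x k)) (fun l i j => g l (y i) (z j))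
      (fun l i => b l (y i)) (fun l j => h l ξ (z j)) (fun l k j => h l (x k) (z j))
      (fun l j => c l (z j)) (fun l i => e l ξ (y i)) (fun l k i => e l (x k) (y i))
      (fun i j => H _ mξ _ (my i) _ (mz j)) (fun k i j => H _ (mx k) _ (my i) _ (mz j))
  have hmy : ¬ SL1 fun i k j => T (x k) (y i) (z j) := by
    intro h'
    apply hm
    rcases h' with ⟨u, v, h'⟩ | ⟨u, v, h'⟩ | ⟨u, v, h'⟩
    · exact Or.inr (Or.inl ⟨u, v, fun k i j => h' i k j⟩)
    · exact Or.inl ⟨u, v, fun k i j => h' i k j⟩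
    · exact Or.inr (Or.inr ⟨u, fun k i => v i k, fun k i j => h' i k j⟩)
  have hmz : ¬ SL1 fun j k i => T (x k) (y i) (z j) := by
    intro h'
    apply hm
    rcases h' with ⟨u, v, h'⟩ | ⟨u, v, h'⟩ | ⟨u, v, h'⟩
    · exact Or.inr (Or.inr ⟨u, v, fun k i j => h' j k i⟩)
    · exact Or.inl ⟨u, fun i j => v j i, fun k i j => h' j k i⟩
    · exact Or.inr (Or.inl ⟨u, fun k j => v j k, fun k i j => h' j k i⟩)
  have tb : ∀ l, b l η + s' 0 * b l (y 0) + s' 1 * b l (y 1) = 0 :=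
    tildeX hmy hs' (by omega : q + p + r < 3) (fun l => b l η) (fun l k => b l (y k))
      (fun l k j => h l (x k) (z j))
      (fun l k => a l (x k)) (fun l j => g l η (z j)) (fun l i j => g l (y i) (z j))
      (fun l j => c l (z j)) (fun l k => e l (x k) η) (fun l i k => e l (x k) (y i))
      (fun k j => by rw [H _ (mx k) _ mη _ (mz j)]; ring)
      (fun i k j => by rw [H _ (mx k) _ (my i) _ (mz j)]; ring)
  have tc : ∀ l, c l ζ + s'' 0 * c l (z 0) + s'' 1 * c l (z 1) = 0 :=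
    tildeX hmz hs'' (by omega : r + p + q < 3) (fun l => c l ζ) (fun l k => c l (z k))
      (fun l k i => e l (x k) (y i))
      (fun l k => a l (x k)) (fun l i => g l (y i) ζ) (fun l j i => g l (y i) (z j))
      (fun l i => b l (y i)) (fun l k => h l (x k) ζ) (fun l j k => h l (x k) (z j))
      (fun k i => by rw [H _ (mx k) _ (my i) _ mζ]; ring)
      (fun j k i => by rw [H _ (mx k) _ (my i) _ (mz j)]; ring)
  set px : Fin 3 → X := ![ξ, x 0, x 1]
  set py : Fin 3 → Y := ![η, y 0, y 1]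
  set pz : Fin 3 → Z := ![ζ, z 0, z 1]
  set w : Fin 3 → F := ![1, s 0, s 1] with hw
  set w' : Fin 3 → F := ![1, s' 0, s' 1] with hw'
  set w'' : Fin 3 → F := ![1, s'' 0, s'' 1] with hw''
  have ta' : ∀ l, ∑ i, w i * a l (px i) = 0 := fun l => by
    rw [Fin.sum_univ_three]
    have := ta l
    simpa [hw, px, add_assoc] using this
  have tb' : ∀ l, ∑ i, w' i * b l (py i) = 0 := fun l => by
    rw [Fin.sum_univ_three]
    have := tb l
    simpa [hw', py, add_assoc] using this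
  have tc' : ∀ l, ∑ i, w'' i * c l (pz i) = 0 := fun l => by
    rw [Fin.sum_univ_three]
    have := tc l
    simpa [hw'', pz, add_assoc] using this
  have hT' : ∀ i j k, w i * w' j * w'' k * T (px i) (py j) (pz k)
      = w' j * w'' k * (w i * ∑ l, a l (px i) * g l (py j) (pz k))
        + w i * w'' k * (w' j * ∑ l, b l (py j) * h l (px i) (pz k))
        + w i * w' j * (w'' k * ∑ l, c l (pz k) * e l (px i) (py j)) := by
    intro i j k
    rw [H _ ⟨i, rfl⟩ _ ⟨j, rfl⟩ _ ⟨k, rfl⟩]; ring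
  simp_rw [hT', Finset.sum_add_distrib]
  have z1 : ∑ i, ∑ j, ∑ k, w' j * w'' k * (w i * ∑ l, a l (px i) * g l (py j) (pz k)) = 0 := by
    rw [Finset.sum_comm]
    refine Finset.sum_eq_zero fun j _ => ?_
    rw [Finset.sum_comm]
    refine Finset.sum_eq_zero fun k _ => ?_
    rw [← Finset.mul_sum, sum_tilde w (fun l i => a l (px i)) ta', mul_zero]
  have z2 : ∑ i, ∑ j, ∑ k, w i * w'' k * (w' j * ∑ l, b l (py j) * h l (px i) (pz k)) = 0 := by
    refine Finset.sum_eq_zero fun i _ => ?_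
    rw [Finset.sum_comm]
    refine Finset.sum_eq_zero fun k _ => ?_
    rw [← Finset.mul_sum, sum_tilde w' (fun l j => b l (py j)) tb', mul_zero]
  have z3 : ∑ i, ∑ j, ∑ k, w i * w' j * (w'' k * ∑ l, c l (pz k) * e l (px i) (py j)) = 0 := by
    refine Finset.sum_eq_zero fun i _ => ?_
    refine Finset.sum_eq_zero fun j _ => ?_
    rw [← Finset.mul_sum, sum_tilde w'' (fun l k => c l (pz k)) tc', mul_zero]
  rw [z1, z2, z3]; ring

theorem SLT_of_universal (T : X → Y → Z → F) (x : Fin 2 → X) (y : Fin 2 → Y) (z : Fin 2 → Z)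
    (hm : ¬ SL1 fun k i j => T (x k) (y i) (z j))
    (hT : ∀ (px : Fin 3 → X) (py : Fin 3 → Y) (pz : Fin 3 → Z),
      SLT (Set.range px) (Set.range py) (Set.range pz) T 3)
    (hs : ∀ ξ, ∃ s, UX (fun k i j => T (x k) (y i) (z j)) (fun i j => T ξ (y i) (z j)) s)
    (hs' : ∀ η, ∃ s, UX (fun i k j => T (x k) (y i) (z j)) (fun k j => T (x k) η (z j)) s)
    (hs'' : ∀ ζ, ∃ s, UX (fun j k i => T (x k) (y i) (z j)) (fun k i => T (x k) (y i) ζ) s) :
    SLT Set.univ Set.univ Set.univ T 7 := by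
  choose s hs using hs
  choose s' hs' using hs'
  choose s'' hs'' using hs''
  set E1 : X → Y → Z → F := fun ξ y' z' =>
    T ξ y' z' + s ξ 0 * T (x 0) y' z' + s ξ 1 * T (x 1) y' z' with hE1
  set E2 : X → Y → Z → F := fun ξ η z' =>
    E1 ξ η z' + s' η 0 * E1 ξ (y 0) z' + s' η 1 * E1 ξ (y 1) z' with hE2
  refine ⟨2, 2, 2, by omega, fun k ξ => - s ξ k, fun k η ζ => T (x k) η ζ,
    fun i η => - s' η i, fun i ξ ζ => E1 ξ (y i) ζ, fun j ζ => - s'' ζ j,
    fun j ξ η => E2 ξ η (z j), fun ξ _ η _ ζ _ => ?_⟩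
  have key := corner T x y z hm ξ η ζ (hT _ _ _) (hs ξ) (hs' η) (hs'' ζ)
  simp only [Fin.sum_univ_three, Matrix.cons_val_zero, Matrix.cons_val_one, Matrix.cons_val_two,
    Matrix.cons_val, Matrix.head_cons, Matrix.tail_cons] at key
  simp only [Fin.sum_univ_two, hE2, hE1]
  linear_combination key

theorem SLT_of_SL1 (T : X → Y → Z → F)
    (h : ∀ (x : Fin 2 → X) (y : Fin 2 → Y) (z : Fin 2 → Z),
      SL1 fun k i j => T (x k) (y i) (z j)) : SLT Set.univ Set.univ Set.univ T 4 := by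
  by_cases h0 : ∀ x y z, T x y z = 0
  · exact ⟨0, 0, 0, by omega, Fin.elim0, Fin.elim0, Fin.elim0, Fin.elim0, Fin.elim0, Fin.elim0,
      fun x _ y _ z _ => by simp [h0]⟩
  push Not at h0
  obtain ⟨x0, y0, z0, h0⟩ := h0
  refine ⟨1, 1, 1, by omega, fun _ x => T x y0 z0, fun _ y z => T x0 y z / T x0 y0 z0
      - 2 * T x0 y z0 * T x0 y0 z / (T x0 y0 z0) ^ 2,
    fun _ y => T x0 y z0, fun _ x z => T x y0 z / T x0 y0 z0,
    fun _ z => T x0 y0 z, fun _ x y => T x y z0 / T x0 y0 z0, fun x _ y _ z _ => ?_⟩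
  simp only [Fin.sum_univ_one]
  have h1 := h ![x0, x] ![y0, y] ![z0, z]
  have key : (T x0 y0 z0) ^ 2 * T x y z = T x0 y0 z0 * (T x y0 z0 * T x0 y z +
      T x0 y z0 * T x y0 z + T x0 y0 z * T x y z0) - 2 * T x y0 z0 * T x0 y z0 * T x0 y0 z := by
    rcases h1 with ⟨a, g, H⟩ | ⟨a, g, H⟩ | ⟨a, g, H⟩
    all_goals
      have e000 := H 0 0 0
      have e001 := H 0 0 1
      have e010 := H 0 1 0
      have e011 := H 0 1 1
      have e100 := H 1 0 0
      have e101 := H 1 0 1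
      have e110 := H 1 1 0
      have e111 := H 1 1 1
      simp only [Matrix.cons_val_zero, Matrix.cons_val_one] at e000 e001 e010 e011 e100 e101 e110 e111
      rw [e000, e001, e010, e011, e100, e101, e110, e111]
      ring
  field_simp
  linear_combination key

theorem SLT.mono {A : Set X} {B : Set Y} {C : Set Z} {T : X → Y → Z → F} {k k' : ℕ}
    (h : SLT A B C T k) (hk : k ≤ k') : SLT A B C T k' := by
  obtain ⟨p, q, r, h1, h2⟩ := h
  exact ⟨p, q, r, by omega, h2⟩

/-- **Slice rank of order three, minors of size three.** -/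
theorem slice_three (T : X → Y → Z → F)
    (hT : ∀ (px : Fin 3 → X) (py : Fin 3 → Y) (pz : Fin 3 → Z),
      SLT (Set.range px) (Set.range py) (Set.range pz) T 3) :
    SLT Set.univ Set.univ Set.univ T 7 := by
  by_cases h1 : ∃ (x : Fin 2 → X) (y : Fin 2 → Y) (z : Fin 2 → Z),
    D2 (fun i j => T (x 0) (y i) (z j)) (fun i j => T (x 1) (y i) (z j)) ≠ 0
  · obtain ⟨x, y, z, hD⟩ := h1
    refine SLT_of_universal T x y z ?_ hT (fun ξ => ?_) (fun η => ?_) (fun ζ => ?_)
    · intro h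
      exact hD (D2_of_SL1 h)
    · exact UX1 _ _ hD
    · refine UX1 _ _ ?_
      intro h
      apply hD
      rw [← h]
      simp only [D2, B2, det2]; ring
    · refine UX1 _ _ ?_
      intro h
      apply hD
      rw [← h]
      simp only [D2, B2, det2]; ring
  push Not at h1
  by_cases h2 : ∀ (x : Fin 2 → X) (y : Fin 2 → Y) (z : Fin 2 → Z),
      SL1 fun k i j => T (x k) (y i) (z j)
  · exact (SLT_of_SL1 T h2).mono (by omega)
  push Not at h2
  obtain ⟨x, y, z, hm⟩ := h2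
  refine SLT_of_universal T x y z hm hT (fun ξ => ?_) (fun η => ?_) (fun ζ => ?_)
  · refine UX2 hm (h1 x y z) fun k => ?_
    exact h1 ![ξ, x k] y z
  · refine UX2 ?_ ?_ fun i => ?_
    · intro h'
      apply hm
      rcases h' with ⟨u, v, h'⟩ | ⟨u, v, h'⟩ | ⟨u, v, h'⟩
      · exact Or.inr (Or.inl ⟨u, v, fun k i j => h' i k j⟩)
      · exact Or.inl ⟨u, v, fun k i j => h' i k j⟩
      · exact Or.inr (Or.inr ⟨u, fun k i => v i k, fun k i j => h' i k j⟩)
    · rw [← h1 x y z]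
      simp only [D2, B2, det2]; ring
    · rw [← h1 x ![η, y i] z]
      simp only [D2, B2, det2, Matrix.cons_val_zero, Matrix.cons_val_one]; ring
  · refine UX2 ?_ ?_ fun j => ?_
    · intro h'
      apply hm
      rcases h' with ⟨u, v, h'⟩ | ⟨u, v, h'⟩ | ⟨u, v, h'⟩
      · exact Or.inr (Or.inr ⟨u, v, fun k i j => h' j k i⟩)
      · exact Or.inl ⟨u, fun i j => v j i, fun k i j => h' j k i⟩
      · exact Or.inr (Or.inl ⟨u, fun k j => v j k, fun k i j => h' j k i⟩)
    · rw [← h1 x y z]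
      simp only [D2, B2, det2]; ring
    · rw [← h1 x y ![ζ, z j]]
      simp only [D2, B2, det2, Matrix.cons_val_zero, Matrix.cons_val_one]; ring

end asm

end Pool.Agent.H402.FR
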