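import Pool.Agent.H402.FR.Two

/-! # The bipartitions of a set with three elements (helper402) -/

open scoped BigOperators
open Finset

namespace Pool.Agent.H402.FR

/-- the bipartition `{I, Iᶜ}` -/
def bip {d : ℕ} (I : Finset (Fin d)) (h : I.Nonempty) (h' : Iᶜ.Nonempty) :
    Finpartition (univ : Finset (Fin d)) where
  parts := {I, Iᶜ}
  supIndep := by
    rw [Finset.supIndep_iff_pairwiseDisjoint]
    intro a ha b hb hab
    simp only [Finset.coe_insert, Finset.coe_singleton, Set.mem_insert_iff,
      Set.mem_singleton_iff] at ha hb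
    rcases ha with rfl | rfl <;> rcases hb with rfl | rfl
    · exact absurd rfl hab
    · exact disjoint_compl_right
    · exact disjoint_compl_left
    · exact absurd rfl hab
  sup_parts := by
    rw [Finset.sup_insert, Finset.sup_singleton]
    simp
  bot_notMem := by
    simp only [Finset.bot_eq_empty, Finset.mem_insert, Finset.mem_singleton, not_or]
    exact ⟨fun h0 => h.ne_empty h0.symm, fun h0 => h'.ne_empty h0.symm⟩

/-- the bipartition `{{α}, {α}ᶜ}` of `Fin 3` -/
def bip3 (α : Fin 3) : Finpartition (univ : Finset (Fin 3)) :=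
  bip {α} (Finset.singleton_nonempty α) (by fin_cases α <;> decide)

theorem bip3_parts (α : Fin 3) : (bip3 α).parts = {{α}, {α}ᶜ} := rfl

theorem bip3_card (α : Fin 3) : (bip3 α).parts.card = 2 := by
  rw [bip3_parts]
  fin_cases α <;> decide

/-- each partition of `Fin 3` with at least two parts refines a bipartition -/
theorem le_bip (P : Finpartition (univ : Finset (Fin 3))) (hP : 2 ≤ P.parts.card) :
    ∃ α : Fin 3, P ≤ bip3 α := by
  classical
  by_cases hall : ∀ S ∈ P.parts, S.card ≤ 1
  · refine ⟨0, fun S hS => ?_⟩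
    obtain ⟨a, ha⟩ := Finset.nonempty_iff_ne_empty.2 (P.ne_bot hS)
    have hSa : S ⊆ {a} := by
      intro b hb
      rw [Finset.mem_singleton]
      exact Finset.card_le_one.1 (hall S hS) b hb a ha
    rw [bip3_parts]
    by_cases h : a = 0
    · exact ⟨{0}, by simp, by rw [← h]; exact hSa⟩
    · refine ⟨{0}ᶜ, by simp, fun b hb => ?_⟩
      have := hSa hb
      rw [Finset.mem_singleton] at this
      rw [Finset.mem_compl, Finset.mem_singleton, this]
      exact h
  · push Not at hall
    obtain ⟨S, hS, hSc⟩ := hall
    obtain ⟨S', hS', hne⟩ := Finset.exists_mem_ne (by omega : 1 < P.parts.card) S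
    obtain ⟨α, hα⟩ := Finset.nonempty_iff_ne_empty.2 (P.ne_bot hS')
    refine ⟨α, fun S'' hS'' => ?_⟩
    rw [bip3_parts]
    by_cases h : S'' = S'
    · subst h
      refine ⟨{α}, by simp, ?_⟩
      have hd : Disjoint S S'' := P.disjoint hS hS' hne.symm
      have hc : S.card + S''.card ≤ 3 := by
        rw [← Finset.card_union_of_disjoint hd]
        simpa using Finset.card_le_univ (S ∪ S'')
      intro b hb
      rw [Finset.mem_singleton]
      exact Finset.card_le_one.1 (by omega) b hb α hα
    · refine ⟨{α}ᶜ, by simp, fun b hb => ?_⟩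
      rw [Finset.mem_compl, Finset.mem_singleton]
      rintro rfl
      exact Finset.disjoint_left.1 (P.disjoint hS'' hS' h) hb hα

end Pool.Agent.H402.FR
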