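import Mathlib

/-! # Full minors for the rank by slices in two directions (noncommutative rank) -/

open scoped BigOperators
open Finset

namespace Pool.Agent.H402.FR

noncomputable section

variable {F : Type*} [Field F] {X Y Z : Type*}

/-- On the box `A × B × C` the function `T` is a sum of fewer than `k` products of the form
`a(y) g(x,z)` or `h(x,y) b(z)`. -/
def NCLT (A : Set X) (B : Set Y) (C : Set Z) (T : X → Y → Z → F) (k : ℕ) : Prop :=
  ∃ p q : ℕ, p + q < k ∧ ∃ (a : Fin p → Y → F) (g : Fin p → X → Z → F) (h : Fin q → X → Y → F)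
    (b : Fin q → Z → F), ∀ x ∈ A, ∀ y ∈ B, ∀ z ∈ C,
      T x y z = ∑ i, a i y * g i x z + ∑ i, h i x y * b i z

/-- variant with arbitrary finite index types -/
theorem NCLT.of_fintype {A : Set X} {B : Set Y} {C : Set Z} {T : X → Y → Z → F} {k : ℕ}
    {ι κ : Type*} [Fintype ι] [Fintype κ] (hk : Fintype.card ι + Fintype.card κ < k)
    (a : ι → Y → F) (g : ι → X → Z → F) (h : κ → X → Y → F)
    (b : κ → Z → F) (H : ∀ x ∈ A, ∀ y ∈ B, ∀ z ∈ C,
      T x y z = ∑ i, a i y * g i x z + ∑ i, h i x y * b i z) : NCLT A B C T k := by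
  refine ⟨Fintype.card ι, Fintype.card κ, hk, fun i => a ((Fintype.equivFin ι).symm i),
    fun i => g ((Fintype.equivFin ι).symm i), fun i => h ((Fintype.equivFin κ).symm i),
    fun i => b ((Fintype.equivFin κ).symm i), fun x hx y hy z hz => ?_⟩
  rw [H x hx y hy z hz]
  congr 1
  · exact (Equiv.sum_comp (Fintype.equivFin ι).symm (fun i => a i y * g i x z)).symm
  · exact (Equiv.sum_comp (Fintype.equivFin κ).symm (fun i => h i x y * b i z)).symm

section poly

variable [Fintype X] [DecidableEq X]

/-- the generic matrix `∑ t_x T_x` -/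
def gen (T : X → Y → Z → F) (y : Y) (z : Z) : MvPolynomial X F :=
  ∑ x, MvPolynomial.C (T x y z) * MvPolynomial.X x

/-- a square minor of the generic matrix -/
def minor (T : X → Y → Z → F) {r : ℕ} (e : Fin r → Y) (f : Fin r → Z) : MvPolynomial X F :=
  (Matrix.of fun i j => gen T (e i) (f j)).det

theorem gen_totalDegree (T : X → Y → Z → F) (y : Y) (z : Z) :
    (gen T y z).totalDegree ≤ 1 := by
  unfold gen
  refine MvPolynomial.totalDegree_finsetSum_le fun x _ => ?_
  refine (MvPolynomial.totalDegree_mul _ _).trans ?_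
  rw [MvPolynomial.totalDegree_C, MvPolynomial.totalDegree_X]

theorem minor_totalDegree (T : X → Y → Z → F) {r : ℕ} (e : Fin r → Y) (f : Fin r → Z) :
    (minor T e f).totalDegree ≤ r := by
  unfold minor
  rw [Matrix.det_apply]
  refine MvPolynomial.totalDegree_finsetSum_le fun σ _ => ?_
  refine (MvPolynomial.totalDegree_smul_le _ _).trans ?_
  refine (MvPolynomial.totalDegree_finsetProd _ _).trans ?_
  refine (Finset.sum_le_sum fun i _ => gen_totalDegree T _ _).trans ?_
  simp

theorem card_support_le {p : MvPolynomial X F} {a : X →₀ ℕ} (ha : a ∈ p.support) {n : ℕ}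
    (hp : p.totalDegree ≤ n) : a.support.card ≤ n := by
  have h1 : (a.sum fun _ e => e) ≤ p.totalDegree := MvPolynomial.le_totalDegree ha
  refine le_trans ?_ (h1.trans hp)
  rw [Finsupp.sum, Finset.card_eq_sum_ones]
  refine Finset.sum_le_sum fun x hx => ?_
  exact Nat.one_le_iff_ne_zero.2 (Finsupp.mem_support_iff.1 hx)

theorem coeff_gen_mul (T : X → Y → Z → F) (y : Y) (z : Z) (p : MvPolynomial X F) (a : X →₀ ℕ) :
    (gen T y z * p).coeff a
      = ∑ x ∈ a.support, T x y z * p.coeff (a - Finsupp.single x 1) := by
  unfold gen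
  rw [Finset.sum_mul, MvPolynomial.coeff_sum]
  rw [← Finset.sum_subset (Finset.subset_univ a.support)]
  · refine Finset.sum_congr rfl fun x hx => ?_
    rw [mul_assoc, MvPolynomial.coeff_C_mul, MvPolynomial.coeff_X_mul', if_pos hx]
  · intro x _ hx
    rw [mul_assoc, MvPolynomial.coeff_C_mul, MvPolynomial.coeff_X_mul', if_neg hx, mul_zero]

theorem pderiv_gen (T : X → Y → Z → F) (x : X) (y : Y) (z : Z) :
    MvPolynomial.pderiv x (gen T y z) = MvPolynomial.C (T x y z) := by
  unfold gen
  rw [map_sum, Finset.sum_eq_single x]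
  · simp
  · intro x' _ hx'
    simp only [Derivation.leibniz, MvPolynomial.pderiv_X, MvPolynomial.pderiv_C]
    simp [hx']
  · intro h; exact absurd (Finset.mem_univ x) h

/-- Schur complement: if all bordered minors vanish -/
theorem schur {A : Type*} [CommRing A] [IsDomain A] {r : ℕ} (M : Y → Z → A) (e : Fin r → Y)
    (f : Fin r → Z)
    (h0 : (Matrix.of fun i j => M (e i) (f j)).det ≠ 0) (y : Y) (z : Z)
    (h1 : (Matrix.fromBlocks (Matrix.of fun i j => M (e i) (f j))
      (Matrix.of fun (i : Fin r) (_ : Unit) => M (e i) z)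
      (Matrix.of fun (_ : Unit) (j : Fin r) => M y (f j))
      (Matrix.of fun (_ _ : Unit) => M y z)).det = 0) :
    (Matrix.of fun i j => M (e i) (f j)).det * M y z
      = ∑ i, M y (f i) * ∑ j, (Matrix.of fun i j => M (e i) (f j)).adjugate i j * M (e j) z := by
  set K := FractionRing A
  have inj : Function.Injective (algebraMap A K) := IsFractionRing.injective A K
  set M0 : Matrix (Fin r) (Fin r) A := Matrix.of fun i j => M (e i) (f j) with hM0
  set b : Matrix (Fin r) Unit A := Matrix.of fun i _ => M (e i) z with hb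
  set c : Matrix Unit (Fin r) A := Matrix.of fun _ j => M y (f j) with hc
  set d : Matrix Unit Unit A := Matrix.of fun _ _ => M y z with hd
  apply inj
  have h2 : (Matrix.fromBlocks (M0.map (algebraMap A K)) (b.map (algebraMap A K))
      (c.map (algebraMap A K)) (d.map (algebraMap A K))).det = 0 := by
    rw [← Matrix.fromBlocks_map, ← RingHom.mapMatrix_apply, ← RingHom.map_det, h1, map_zero]
  have hdet : IsUnit (M0.map (algebraMap A K)).det := by
    rw [← RingHom.mapMatrix_apply, ← RingHom.map_det, isUnit_iff_ne_zero]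
    exact fun h => h0 (inj (by rw [h, map_zero]))
  let : Invertible (M0.map (algebraMap A K)) := Matrix.invertibleOfIsUnitDet _ hdet
  rw [Matrix.det_fromBlocks₁₁] at h2
  have h3 : ((d.map (algebraMap A K)) - (c.map (algebraMap A K)) * ⅟(M0.map (algebraMap A K))
      * (b.map (algebraMap A K))).det = 0 := by
    rcases mul_eq_zero.1 h2 with h | h
    · exact absurd h hdet.ne_zero
    · exact h
  rw [Matrix.det_unique, Matrix.sub_apply, sub_eq_zero] at h3
  rw [Matrix.invOf_eq_nonsing_inv, Matrix.inv_def, Matrix.mul_smul, Matrix.smul_mul,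
    Matrix.smul_apply, Ring.inverse_eq_inv', smul_eq_mul] at h3
  have h4 : algebraMap A K (M y z) = (d.map (algebraMap A K)) default default := rfl
  rw [map_mul, h4, h3, ← mul_assoc]
  have h5 : algebraMap A K M0.det = (M0.map (algebraMap A K)).det := by
    rw [← RingHom.mapMatrix_apply, ← RingHom.map_det]
  rw [h5, mul_inv_cancel₀ hdet.ne_zero, one_mul, Matrix.mul_assoc, Matrix.mul_apply, map_sum]
  refine Finset.sum_congr rfl fun i _ => ?_
  rw [map_mul, map_sum, Matrix.mul_apply]
  congr 1
  refine Finset.sum_congr rfl fun j _ => ?_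
  rw [map_mul, ← RingHom.mapMatrix_apply, ← RingHom.map_adjugate]
  rfl

/-- a matrix that factors through fewer dimensions has determinant zero -/
theorem det_eq_zero_of_factor {A : Type*} [CommRing A] {l : ℕ} {ι : Type*} [Fintype ι]
    (hι : Fintype.card ι < l) (M : Matrix (Fin l) (Fin l) A) (u : Fin l → ι → A)
    (v : ι → Fin l → A) (h : ∀ i j, M i j = ∑ s, u i s * v s j) : M.det = 0 := by
  classical
  have hne : Nonempty (ι ↪ Fin l) := by
    rw [Function.Embedding.nonempty_iff_card_le]
    simpa using hι.le
  obtain ⟨g⟩ := hne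
  have hns : ¬ Function.Surjective g := by
    intro hs
    have := Fintype.card_le_of_surjective g hs
    simp at this
    omega
  rw [Function.Surjective] at hns
  push Not at hns
  obtain ⟨k₀, hk₀⟩ := hns
  set U : Matrix (Fin l) (Fin l) A := Matrix.of fun i k => Function.extend g (fun s => u i s) 0 k
  set V : Matrix (Fin l) (Fin l) A := Matrix.of fun k j => Function.extend g (fun s => v s j) 0 k
  have hM : M = U * V := by
    ext i j
    rw [h, Matrix.mul_apply]
    rw [← Finset.sum_subset (Finset.subset_univ (Finset.univ.map g))]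
    · rw [Finset.sum_map]
      refine Finset.sum_congr rfl fun s _ => ?_
      simp only [U, V, Matrix.of_apply]
      rw [g.injective.extend_apply, g.injective.extend_apply]
    · intro k _ hk
      have : ¬ ∃ s, g s = k := by
        rintro ⟨s, rfl⟩
        exact hk (Finset.mem_map_of_mem g (Finset.mem_univ s))
      simp only [U, V, Matrix.of_apply]
      rw [Function.extend_apply' _ _ _ this]
      simp
  rw [hM, Matrix.det_mul]
  have : U.det = 0 := by
    refine Matrix.det_eq_zero_of_column_eq_zero k₀ fun i => ?_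
    simp only [U, Matrix.of_apply]
    rw [Function.extend_apply' _ _ _ (by rintro ⟨s, hs⟩; exact hk₀ s hs)]
    rfl
  rw [this, zero_mul]

/-- the substitution killing the variables outside `S` -/
def kill (S : Finset X) : MvPolynomial X F →ₐ[F] MvPolynomial X F :=
  MvPolynomial.aeval fun x => if x ∈ S then MvPolynomial.X x else 0

theorem coeff_kill (S : Finset X) (p : MvPolynomial X F) {a : X →₀ ℕ} (ha : a.support ⊆ S) :
    (kill S p).coeff a = p.coeff a := by
  classical
  induction p using MvPolynomial.induction_on' with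
  | monomial u c =>
    by_cases hu : u.support ⊆ S
    · have : kill S (MvPolynomial.monomial u c) = MvPolynomial.monomial u c := by
        unfold kill
        rw [MvPolynomial.aeval_monomial, MvPolynomial.monomial_eq (a := c)]
        congr 1
        refine Finset.prod_congr rfl fun x hx => ?_
        simp only
        rw [if_pos (hu hx)]
      rw [this]
    · have h0 : kill S (MvPolynomial.monomial u c) = 0 := by
        unfold kill
        rw [MvPolynomial.aeval_monomial]
        rw [Finset.not_subset] at hu
        obtain ⟨x, hx, hxS⟩ := hu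
        have : (u.prod fun i k => (if i ∈ S then (MvPolynomial.X i : MvPolynomial X F) else 0) ^ k)
            = 0 := by
          refine Finset.prod_eq_zero hx ?_
          simp only
          rw [if_neg hxS, zero_pow (Finsupp.mem_support_iff.1 hx)]
        rw [this, mul_zero]
      rw [h0, MvPolynomial.coeff_zero, MvPolynomial.coeff_monomial, if_neg]
      rintro rfl
      exact hu ha
  | add p q hp hq => rw [map_add, MvPolynomial.coeff_add, MvPolynomial.coeff_add, hp, hq]

theorem kill_gen (S : Finset X) (T : X → Y → Z → F) (y : Y) (z : Z) :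
    kill S (gen T y z) = gen (fun x y z => if x ∈ S then T x y z else 0) y z := by
  unfold gen kill
  rw [map_sum]
  refine Finset.sum_congr rfl fun x _ => ?_
  rw [map_mul, MvPolynomial.aeval_X, MvPolynomial.aeval_C]
  by_cases hx : x ∈ S
  · simp only [if_pos hx]; rfl
  · simp only [if_neg hx]; simp

theorem kill_minor (S : Finset X) (T : X → Y → Z → F) {r : ℕ} (e : Fin r → Y) (f : Fin r → Z) :
    kill S (minor T e f) = minor (fun x y z => if x ∈ S then T x y z else 0) e f := by
  unfold minor
  rw [AlgHom.map_det]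
  congr 1
  refine Matrix.ext fun i j => ?_
  simp only [AlgHom.mapMatrix_apply, Matrix.map_apply, Matrix.of_apply]
  exact kill_gen S T _ _

/-- a nonvanishing minor of size `l` gives a full minor -/
theorem full_of_minor (T : X → Y → Z → F) {l : ℕ} (e : Fin l → Y) (f : Fin l → Z)
    (h : minor T e f ≠ 0) :
    ∃ A : Finset X, A.card ≤ l ∧ ¬ NCLT (A : Set X) (Set.range e) (Set.range f) T l := by
  classical
  obtain ⟨a, ha⟩ := MvPolynomial.ne_zero_iff.1 h
  refine ⟨a.support, card_support_le (MvPolynomial.mem_support_iff.2 ha)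
    (minor_totalDegree T e f), ?_⟩
  rintro ⟨p, q, hpq, α, g, η, β, H⟩
  have hc := coeff_kill a.support (minor T e f) (Finset.Subset.refl _)
  rw [kill_minor] at hc
  have h0 : minor (fun x y z => if x ∈ a.support then T x y z else 0) e f = 0 := by
    unfold minor
    refine det_eq_zero_of_factor (ι := Fin p ⊕ Fin q) (by simpa using hpq) _
      (fun i s => Sum.elim (fun s => MvPolynomial.C (α s (e i)))
        (fun s => ∑ x ∈ a.support, MvPolynomial.C (η s x (e i)) * MvPolynomial.X x) s)
      (fun s j => Sum.elim
        (fun s => ∑ x ∈ a.support, MvPolynomial.C (g s x (f j)) * MvPolynomial.X x)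
        (fun s => MvPolynomial.C (β s (f j))) s) fun i j => ?_
    simp only [Matrix.of_apply, Fintype.sum_sum_type, Sum.elim_inl, Sum.elim_inr]
    have e1 : gen (fun x y z => if x ∈ a.support then T x y z else 0) (e i) (f j)
        = ∑ x ∈ a.support, MvPolynomial.C (T x (e i) (f j)) * MvPolynomial.X x := by
      unfold gen
      rw [← Finset.sum_subset (Finset.subset_univ a.support)]
      · refine Finset.sum_congr rfl fun x hx => ?_
        simp only [if_pos hx]
      · intro x _ hx
        simp only [if_neg hx]; simp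
    rw [e1]
    have e2 : ∀ x ∈ a.support, MvPolynomial.C (T x (e i) (f j)) * MvPolynomial.X x
        = ∑ s, MvPolynomial.C (α s (e i)) * (MvPolynomial.C (g s x (f j)) * MvPolynomial.X x)
          + ∑ s, (MvPolynomial.C (η s x (e i)) * MvPolynomial.X x)
            * MvPolynomial.C (β s (f j)) := by
      intro x hx
      rw [H x hx (e i) ⟨i, rfl⟩ (f j) ⟨j, rfl⟩, map_add, map_sum, map_sum, add_mul,
        Finset.sum_mul, Finset.sum_mul]
      congr 1
      · refine Finset.sum_congr rfl fun s _ => ?_
        rw [map_mul]; ring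
      · refine Finset.sum_congr rfl fun s _ => ?_
        rw [map_mul]; ring
    rw [Finset.sum_congr rfl e2, Finset.sum_add_distrib, Finset.sum_comm]
    congr 1
    · exact Finset.sum_congr rfl fun s _ => (Finset.mul_sum _ _ _).symm
    · rw [Finset.sum_comm]
      exact Finset.sum_congr rfl fun s _ => (Finset.sum_mul _ _ _).symm
  rw [h0, MvPolynomial.coeff_zero] at hc
  exact ha hc.symm

/-- if all minors of size `r + 1` vanish and some minor of size `r` does not, the rank is small -/
theorem small_of_minors (T : X → Y → Z → F) {r : ℕ} (e : Fin r → Y) (f : Fin r → Z)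
    (h : minor T e f ≠ 0)
    (h' : ∀ (e' : Fin (r + 1) → Y) (f' : Fin (r + 1) → Z), minor T e' f' = 0) :
    NCLT Set.univ Set.univ Set.univ T (2 * r ^ 2 + r + 1) := by
  classical
  set Δ := minor T e f with hΔ
  set M0 : Matrix (Fin r) (Fin r) (MvPolynomial X F) := Matrix.of fun i j => gen T (e i) (f j)
    with hM0
  set B : Fin r → Z → MvPolynomial X F := fun i z => ∑ j, M0.adjugate i j * gen T (e j) z with hB
  -- Schur complement
  have hS : ∀ y z, Δ * gen T y z = ∑ i, gen T y (f i) * B i z := by
    intro y z
    refine schur (gen T) e f h y z ?_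
    have h1 := h' (fun i => Fin.lastCases y e i) (fun i => Fin.lastCases z f i)
    unfold minor at h1
    have h2 : Matrix.fromBlocks (Matrix.of fun i j => gen T (e i) (f j))
        (Matrix.of fun (i : Fin r) (_ : Unit) => gen T (e i) z)
        (Matrix.of fun (_ : Unit) (j : Fin r) => gen T y (f j))
        (Matrix.of fun (_ _ : Unit) => gen T y z)
        = (Matrix.of fun i j => gen T (Fin.lastCases y e i) (Fin.lastCases z f j)).submatrix
          (Sum.elim Fin.castSucc fun _ => Fin.last r) (Sum.elim Fin.castSucc fun _ => Fin.last r)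
        := by
      ext i j : 2
      rcases i with i | i <;> rcases j with j | j <;> simp [Matrix.fromBlocks]
    rw [h2]
    have hbij : Function.Bijective
        (Sum.elim Fin.castSucc fun _ => Fin.last r : Fin r ⊕ Unit → Fin (r + 1)) := by
      rw [Fintype.bijective_iff_injective_and_card]
      refine ⟨?_, by simp⟩
      rintro (a | a) (b | b) hab
      · simp only [Sum.elim_inl] at hab
        rw [Fin.castSucc_injective r hab]
      · simp only [Sum.elim_inl, Sum.elim_inr] at hab
        exact absurd hab (Fin.castSucc_lt_last a).ne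
      · simp only [Sum.elim_inl, Sum.elim_inr] at hab
        exact absurd hab.symm (Fin.castSucc_lt_last b).ne
      · rfl
    have h3 := Matrix.det_submatrix_equiv_self (Equiv.ofBijective _ hbij)
      (Matrix.of fun i j => gen T (Fin.lastCases y e i) (Fin.lastCases z f j))
    rw [h1] at h3
    exact h3
  -- differentiate
  have hD : ∀ x y z, Δ * Δ * MvPolynomial.C (T x y z)
      = ∑ i, gen T y (f i)
          * (Δ * MvPolynomial.pderiv x (B i z) - B i z * MvPolynomial.pderiv x Δ)
        + ∑ i, MvPolynomial.C (T x y (f i)) * (Δ * B i z) := by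
    intro x y z
    have h1 := congrArg (MvPolynomial.pderiv x) (hS y z)
    rw [Derivation.leibniz, pderiv_gen, map_sum] at h1
    simp only [Derivation.leibniz, pderiv_gen, smul_eq_mul] at h1
    have h2 : Δ * Δ * MvPolynomial.C (T x y z)
        = Δ * (∑ i, (gen T y (f i) * MvPolynomial.pderiv x (B i z)
            + B i z * MvPolynomial.C (T x y (f i))))
          - (Δ * gen T y z) * MvPolynomial.pderiv x Δ := by
      rw [← h1]; ring
    rw [h2, hS y z, Finset.mul_sum, Finset.sum_mul, ← Finset.sum_sub_distrib,
      ← Finset.sum_add_distrib]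
    refine Finset.sum_congr rfl fun i _ => ?_
    ring
  -- a monomial of Δ²
  have hΔ2 : Δ * Δ ≠ 0 := mul_ne_zero h h
  obtain ⟨a, ha⟩ := MvPolynomial.ne_zero_iff.1 hΔ2
  have hdeg : (Δ * Δ).totalDegree ≤ 2 * r := by
    refine (MvPolynomial.totalDegree_mul _ _).trans ?_
    have := minor_totalDegree T e f
    rw [← hΔ] at this
    omega
  have hcard : a.support.card ≤ 2 * r :=
    card_support_le (MvPolynomial.mem_support_iff.2 ha) hdeg
  set δ := (Δ * Δ).coeff a with hδ
  refine NCLT.of_fintype (ι := a.support × Fin r) (κ := Fin r) ?_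
    (fun s y => T s.1 y (f s.2))
    (fun s x z => δ⁻¹ * (Δ * MvPolynomial.pderiv x (B s.2 z)
      - B s.2 z * MvPolynomial.pderiv x Δ).coeff (a - Finsupp.single (s.1 : X) 1))
    (fun i x y => T x y (f i))
    (fun i z => δ⁻¹ * (Δ * B i z).coeff a) ?_
  · simp only [Fintype.card_prod, Fintype.card_coe, Fintype.card_fin]
    nlinarith
  · intro x _ y _ z _
    have h1 := congrArg (fun p => δ⁻¹ * MvPolynomial.coeff a p) (hD x y z)
    simp only [MvPolynomial.coeff_add, MvPolynomial.coeff_sum] at h1
    rw [mul_comm (Δ * Δ), MvPolynomial.coeff_C_mul, ← hδ] at h1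
    have h2 : δ⁻¹ * (T x y z * δ) = T x y z := by
      field_simp
    rw [h2] at h1
    rw [h1, mul_add]
    congr 1
    · rw [Fintype.sum_prod_type, Finset.sum_comm, Finset.mul_sum]
      refine Finset.sum_congr rfl fun i _ => ?_
      rw [coeff_gen_mul, Finset.mul_sum, Finset.univ_eq_attach, Finset.sum_attach a.support
        (fun x' => T x' y (f i) * (δ⁻¹ * (Δ * MvPolynomial.pderiv x (B i z)
          - B i z * MvPolynomial.pderiv x Δ).coeff (a - Finsupp.single x' 1)))]
      refine Finset.sum_congr rfl fun x' _ => ?_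
      ring
    · rw [Finset.mul_sum]
      refine Finset.sum_congr rfl fun i _ => ?_
      rw [MvPolynomial.coeff_C_mul]
      ring

/-- **Main theorem for two slices.** -/
theorem nc_full (T : X → Y → Z → F) (l : ℕ)
    (h : ¬ NCLT Set.univ Set.univ Set.univ T (2 * l ^ 2)) :
    ∃ (A : Finset X) (e : Fin l → Y) (f : Fin l → Z), A.card ≤ l ∧
      ¬ NCLT (A : Set X) (Set.range e) (Set.range f) T l := by
  classical
  by_cases hl : ∃ (e : Fin l → Y) (f : Fin l → Z), minor T e f ≠ 0
  · obtain ⟨e, f, hef⟩ := hl
    obtain ⟨A, hA, hA'⟩ := full_of_minor T e f hef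
    exact ⟨A, e, f, hA, hA'⟩
  · exfalso
    have hex : ∃ s, ¬ ∃ (e : Fin s → Y) (f : Fin s → Z), minor T e f ≠ 0 := ⟨l, hl⟩
    set s := Nat.find hex with hs
    have hsl : s ≤ l := Nat.find_min' hex hl
    have hs0 : s ≠ 0 := by
      intro h0
      have := Nat.find_spec hex
      rw [← hs, h0] at this
      refine this ⟨Fin.elim0, Fin.elim0, ?_⟩
      unfold minor
      rw [Matrix.det_isEmpty]
      exact one_ne_zero
    obtain ⟨r, hr⟩ := Nat.exists_eq_succ_of_ne_zero hs0
    have h1 : ∃ (e : Fin r → Y) (f : Fin r → Z), minor T e f ≠ 0 := by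
      by_contra hc
      have := Nat.find_min' hex hc
      omega
    have h2 := Nat.find_spec hex
    rw [← hs, hr] at h2
    push Not at h2
    obtain ⟨e, f, hef⟩ := h1
    obtain ⟨p, q, hpq, H⟩ := small_of_minors T e f hef h2
    refine h ⟨p, q, ?_, H⟩
    have : r + 1 ≤ l := by omega
    have h3 : 2 * (r + 1) ^ 2 ≤ 2 * l ^ 2 := by gcongr
    nlinarith

end poly

end

end Pool.Agent.H402.FR
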