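import Pool.Agent.H402.FR.Two

/-! # `R`-rank, families with a greatest element -/

open scoped BigOperators
open Finset

namespace Pool.Agent.H402.FR

noncomputable section

variable {F : Type*} [Field F] {d : ℕ} {Q : Fin d → Type*}

/-- replace the coordinates in `S` by those of `z` -/
def paste (S : Finset (Fin d)) (z : ∀ α : {a // a ∈ S}, Q α) (x : ∀ α, Q α) : ∀ α, Q α :=
  fun α => if h : α ∈ S then z ⟨α, h⟩ else x α

theorem paste_self (S : Finset (Fin d)) (x : ∀ α, Q α) : paste S (fun α => x α) x = x := by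
  funext α
  unfold paste
  split_ifs <;> rfl

/-- rank less than `k` on a product of sets of blocks -/
def BR (P₀ : Finpartition (univ : Finset (Fin d))) (T : (∀ α, Q α) → F)
    (B : ∀ S : Finset (Fin d), Finset (∀ α : {a // a ∈ S}, Q α)) (k : ℕ) : Prop :=
  ∃ r : ℕ, r < k ∧ ∃ f : Fin r → Finset (Fin d) → (∀ α, Q α) → F,
    (∀ i S x y, (∀ α ∈ S, x α = y α) → f i S x = f i S y) ∧
    ∀ x, (∀ S ∈ P₀.parts, (fun α : {a // a ∈ S} => x α) ∈ B S) →
      T x = ∑ i, ∏ S ∈ P₀.parts, f i S x

open Classical in
theorem BR.extend {P₀ : Finpartition (univ : Finset (Fin d))} {T : (∀ α, Q α) → F}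
    {B : ∀ S : Finset (Fin d), Finset (∀ α : {a // a ∈ S}, Q α)} {k : ℕ} {S : Finset (Fin d)}
    (hS : S ∈ P₀.parts) {z₁ : ∀ α : {a // a ∈ S}, Q α}
    (c : (∀ α : {a // a ∈ S}, Q α) → F)
    (hc : ∀ x, (∀ S' ∈ P₀.parts, S' ≠ S → (fun α : {a // a ∈ S'} => x α) ∈ B S') →
      T (paste S z₁ x) = ∑ z ∈ (B S).erase z₁, c z * T (paste S z x))
    (h : BR P₀ T (Function.update B S ((B S).erase z₁)) k) : BR P₀ T B k := by
  obtain ⟨r, hr, f, hf, H⟩ := h
  refine ⟨r, hr, fun i S' x => if S' = S ∧ (fun α : {a // a ∈ S} => x α) = z₁ then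
    ∑ z ∈ (B S).erase z₁, c z * f i S (paste S z x) else f i S' x, fun i S' x y hxy => ?_,
    fun x hx => ?_⟩
  · simp only
    by_cases hS' : S' = S
    · subst hS'
      have e1 : (fun α : {a // a ∈ S'} => x α) = (fun α : {a // a ∈ S'} => y α) := by
        funext α
        exact hxy α α.2
      rw [e1]
      split_ifs with h1
      · refine Finset.sum_congr rfl fun z _ => ?_
        congr 1
        refine hf i S' _ _ fun α hα => ?_
        simp only [paste, dif_pos hα]
      · exact hf i S' x y hxy
    · rw [if_neg (fun h => hS' h.1), if_neg (fun h => hS' h.1)]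
      exact hf i S' x y hxy
  · have key : ∀ z ∈ (B S).erase z₁, T (paste S z x) = ∑ i, ∏ S' ∈ P₀.parts, f i S' (paste S z x) := by
      intro z hz
      refine H _ fun S' hS' => ?_
      by_cases hS'S : S' = S
      · subst hS'S
        rw [Function.update_self]
        have : (fun α : {a // a ∈ S'} => paste S' z x α) = z := by
          funext α
          simp only [paste, dif_pos α.2]
        rw [this]
        exact hz
      · rw [Function.update_of_ne hS'S]
        have : (fun α : {a // a ∈ S'} => paste S z x α) = (fun α : {a // a ∈ S'} => x α) := by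
          funext α
          have hα : (α : Fin d) ∉ S := fun h =>
            Finset.disjoint_left.1 (P₀.disjoint hS' hS hS'S) α.2 h
          simp only [paste, dif_neg hα]
        rw [this]
        exact hx S' hS'
    by_cases hz : (fun α : {a // a ∈ S} => x α) = z₁
    · have e1 : paste S z₁ x = x := by
        rw [← hz]
        exact paste_self S x
      rw [← e1, hc x fun S' hS' _ => hx S' hS', e1]
      have e2 : ∀ i, (∏ S' ∈ P₀.parts, if S' = S ∧ (fun α : {a // a ∈ S} => x α) = z₁ then
          ∑ z ∈ (B S).erase z₁, c z * f i S (paste S z x) else f i S' x)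
          = ∑ z ∈ (B S).erase z₁, c z * ∏ S' ∈ P₀.parts, f i S' (paste S z x) := by
        intro i
        rw [← Finset.mul_prod_erase _ _ hS, if_pos ⟨rfl, hz⟩, Finset.sum_mul]
        refine Finset.sum_congr rfl fun z _ => ?_
        rw [← Finset.mul_prod_erase P₀.parts (fun S' => f i S' (paste S z x)) hS, mul_assoc]
        congr 2
        refine Finset.prod_congr rfl fun S' hS' => ?_
        have hne := (Finset.mem_erase.1 hS').1
        rw [if_neg (fun h => hne h.1)]
        refine hf i S' _ _ fun α hα => ?_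
        have hα' : α ∉ S := fun h =>
          Finset.disjoint_left.1 (P₀.disjoint (Finset.mem_erase.1 hS').2 hS hne) hα h
        simp only [paste, dif_neg hα']
      rw [Finset.sum_congr rfl fun i _ => e2 i, Finset.sum_comm]
      refine Finset.sum_congr rfl fun z hz' => ?_
      rw [key z hz', Finset.mul_sum]
    · have e2 : ∀ i, (∏ S' ∈ P₀.parts, if S' = S ∧ (fun α : {a // a ∈ S} => x α) = z₁ then
          ∑ z ∈ (B S).erase z₁, c z * f i S (paste S z x) else f i S' x)
          = ∏ S' ∈ P₀.parts, f i S' x := by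
        intro i
        refine Finset.prod_congr rfl fun S' _ => ?_
        rw [if_neg (fun h => hz h.2)]
      rw [Finset.sum_congr rfl fun i _ => e2 i]
      refine H x fun S' hS' => ?_
      by_cases hS'S : S' = S
      · subst hS'S
        rw [Function.update_self]
        exact Finset.mem_erase.2 ⟨hz, hx S' hS'⟩
      · rw [Function.update_of_ne hS'S]
        exact hx S' hS'

open Classical in
theorem BR.small (P₀ : Finpartition (univ : Finset (Fin d))) (T : (∀ α, Q α) → F) (k : ℕ)
    (n : ℕ) : ∀ B : (∀ S : Finset (Fin d), Finset (∀ α : {a // a ∈ S}, Q α)),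
    ∑ S ∈ P₀.parts, (B S).card = n → ¬ BR P₀ T B k →
    ∃ B' : (∀ S : Finset (Fin d), Finset (∀ α : {a // a ∈ S}, Q α)),
      (∀ S ∈ P₀.parts, (B' S).card ≤ k) ∧ ¬ BR P₀ T B' k := by
  induction n using Nat.strong_induction_on with
  | _ n ih =>
    intro B hn hB
    by_cases hall : ∀ S ∈ P₀.parts, (B S).card ≤ k
    · exact ⟨B, hall, hB⟩
    push Not at hall
    obtain ⟨S, hS, hk⟩ := hall
    have hlt : ∀ z ∈ B S,
        ∑ S' ∈ P₀.parts, (Function.update B S ((B S).erase z) S').card < n := by
      intro z hz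
      rw [← hn]
      refine Finset.sum_lt_sum (fun S' _ => ?_) ⟨S, hS, ?_⟩
      · by_cases hS' : S' = S
        · subst hS'
          rw [Function.update_self]
          exact Finset.card_le_card (Finset.erase_subset _ _)
        · rw [Function.update_of_ne hS']
      · rw [Function.update_self]
        exact Finset.card_erase_lt_of_mem hz
    obtain ⟨z₀, hz₀⟩ : (B S).Nonempty := Finset.card_pos.1 (by omega)
    by_cases h1 : BR P₀ T (Function.update B S ((B S).erase z₀)) k
    swap
    · exact ih _ (hlt z₀ hz₀) _ rfl h1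
    obtain ⟨r, hr, f, hf, H⟩ := h1
    set A := (B S).erase z₀ with hA
    have hAc : r < A.card := by
      rw [hA, Finset.card_erase_of_mem hz₀]
      omega
    -- a linear dependence between the vectors `f i S z`
    by_cases hne : Nonempty (∀ α, Q α)
    swap
    · exfalso
      apply hB
      refine ⟨0, by omega, Fin.elim0, fun i => i.elim0, fun x => ?_⟩
      exact absurd ⟨x⟩ hne
    obtain ⟨w⟩ := hne
    have hdep : ∃ g : A → F, (∀ i, ∑ z : A, g z * f i S (paste S z w) = 0) ∧ ∃ z, g z ≠ 0 := by
      have h2 : ¬ LinearIndependent F (fun z : A => fun i : Fin r => f i S (paste S z w)) := by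
        intro h3
        have h4 := h3.fintype_card_le_finrank
        simp at h4
        omega
      obtain ⟨g, hg, z, hz⟩ := Fintype.not_linearIndependent_iff.1 h2
      refine ⟨g, fun i => ?_, z, hz⟩
      have := congrFun hg i
      simpa [Finset.sum_apply] using this
    obtain ⟨g, hg, z₁, hz₁⟩ := hdep
    have hz₁A : (z₁ : ∀ α : {a // a ∈ S}, Q α) ∈ B S := Finset.mem_of_mem_erase z₁.2
    by_cases h2 : BR P₀ T (Function.update B S ((B S).erase (z₁ : ∀ α : {a // a ∈ S}, Q α))) k
    swap
    · exact ih _ (hlt z₁ hz₁A) _ rfl h2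
    exfalso
    apply hB
    refine BR.extend hS (fun z => if h : z ∈ A then - g ⟨z, h⟩ / g z₁ else 0) ?_ h2
    intro x hx
    have key : ∀ z ∈ A, T (paste S z x) = ∑ i, ∏ S' ∈ P₀.parts, f i S' (paste S z x) := by
      intro z hz
      refine H _ fun S' hS' => ?_
      by_cases hS'S : S' = S
      · subst hS'S
        rw [Function.update_self]
        have : (fun α : {a // a ∈ S'} => paste S' z x α) = z := by
          funext α
          simp only [paste, dif_pos α.2]
        rw [this]
        exact hz
      · rw [Function.update_of_ne hS'S]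
        have : (fun α : {a // a ∈ S'} => paste S z x α) = (fun α : {a // a ∈ S'} => x α) := by
          funext α
          have hα : (α : Fin d) ∉ S := fun h =>
            Finset.disjoint_left.1 (P₀.disjoint hS' hS hS'S) α.2 h
          simp only [paste, dif_neg hα]
        rw [this]
        exact hx S' hS' hS'S
    have key2 : ∑ z : A, g z * T (paste S z x) = 0 := by
      have e1 : ∀ z : A, g z * T (paste S z x)
          = ∑ i, g z * f i S (paste S z w) * ∏ S' ∈ P₀.parts.erase S, f i S' x := by
        intro z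
        rw [key z z.2, Finset.mul_sum]
        refine Finset.sum_congr rfl fun i _ => ?_
        rw [← Finset.mul_prod_erase P₀.parts (fun S' => f i S' (paste S z x)) hS, mul_assoc]
        congr 2
        · refine hf i S _ _ fun α hα => ?_
          simp only [paste, dif_pos hα]
        · refine Finset.prod_congr rfl fun S' hS' => ?_
          have hne := (Finset.mem_erase.1 hS').1
          refine hf i S' _ _ fun α hα => ?_
          have hα' : α ∉ S := fun h =>
            Finset.disjoint_left.1 (P₀.disjoint (Finset.mem_erase.1 hS').2 hS hne) hα h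
          simp only [paste, dif_neg hα']
      rw [Finset.sum_congr rfl fun z _ => e1 z, Finset.sum_comm]
      refine Finset.sum_eq_zero fun i _ => ?_
      rw [← Finset.sum_mul, hg i, zero_mul]
    -- rewrite the sum over `A`
    have key3 : ∑ z ∈ (B S).erase (z₁ : ∀ α : {a // a ∈ S}, Q α),
        (if h : z ∈ A then - g ⟨z, h⟩ / g z₁ else 0) * T (paste S z x)
        = ∑ z ∈ A.erase (z₁ : ∀ α : {a // a ∈ S}, Q α),
          (if h : z ∈ A then - g ⟨z, h⟩ / g z₁ else 0) * T (paste S z x) := by
      symm
      refine Finset.sum_subset (Finset.erase_subset_erase _ (Finset.erase_subset _ _)) ?_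
      intro z hz hz'
      have : z ∉ A := fun h => hz' (Finset.mem_erase.2 ⟨(Finset.mem_erase.1 hz).1, h⟩)
      rw [dif_neg this, zero_mul]
    rw [key3]
    have key4 : ∑ z : A, g z * T (paste S z x)
        = ∑ z ∈ A, (if h : z ∈ A then g ⟨z, h⟩ else 0) * T (paste S z x) := by
      rw [← Finset.sum_coe_sort A (fun z => (if h : z ∈ A then g ⟨z, h⟩ else 0) * T (paste S z x))]
      refine Finset.sum_congr rfl fun z _ => ?_
      rw [dif_pos z.2]
    rw [key4, ← Finset.add_sum_erase A _ z₁.2, dif_pos z₁.2] at key2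
    have key5 : ∑ z ∈ A.erase (z₁ : ∀ α : {a // a ∈ S}, Q α),
        (if h : z ∈ A then - g ⟨z, h⟩ / g z₁ else 0) * T (paste S z x)
        = - (g z₁)⁻¹ * ∑ z ∈ A.erase (z₁ : ∀ α : {a // a ∈ S}, Q α),
          (if h : z ∈ A then g ⟨z, h⟩ else 0) * T (paste S z x) := by
      rw [Finset.mul_sum]
      refine Finset.sum_congr rfl fun z hz => ?_
      have hz' := (Finset.mem_erase.1 hz).2
      rw [dif_pos hz', dif_pos hz']
      field_simp
    rw [key5, ← mul_right_inj' hz₁]
    have key6 := eq_neg_of_add_eq_zero_right key2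
    rw [key6]
    field_simp

/-- regrouping a product over the parts of a finer partition -/
theorem coarsen {P P₀ : Finpartition (univ : Finset (Fin d))} (hP : P ≤ P₀)
    (g : Finset (Fin d) → F) :
    ∏ S ∈ P.parts, g S = ∏ S' ∈ P₀.parts, ∏ S ∈ P.parts with S ⊆ S', g S := by
  classical
  rw [← Finset.prod_biUnion]
  · refine Finset.prod_congr ?_ fun _ _ => rfl
    ext S
    rw [Finset.mem_biUnion]
    constructor
    · intro hS
      obtain ⟨c, hc, hSc⟩ := hP hS
      exact ⟨c, hc, Finset.mem_filter.2 ⟨hS, hSc⟩⟩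
    · rintro ⟨c, _, hSc⟩
      exact (Finset.mem_filter.1 hSc).1
  · intro S₁ h₁ S₂ h₂ hne
    rw [Function.onFun, Finset.disjoint_left]
    intro S hS1 hS2
    obtain ⟨hS, h3⟩ := Finset.mem_filter.1 hS1
    obtain ⟨_, h4⟩ := Finset.mem_filter.1 hS2
    obtain ⟨a, ha⟩ := Finset.nonempty_iff_ne_empty.2 (P.ne_bot hS)
    exact Finset.disjoint_left.1 (P₀.disjoint h₁ h₂ hne) (h3 ha) (h4 ha)

/-- **Theorem A.** Families with a greatest element. -/
theorem full_top [∀ α, Fintype (Q α)] {R : Set (Finpartition (univ : Finset (Fin d)))}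
    {P₀ : Finpartition (univ : Finset (Fin d))} (hP₀ : P₀ ∈ R) (hR : ∀ P ∈ R, P ≤ P₀)
    (T : (∀ α, Q α) → F) (l : ℕ) (hT : ¬ RankLT R T (fun _ => univ) l) :
    ∃ X : ∀ α, Finset (Q α), (∀ α, (X α).card ≤ l) ∧ ¬ RankLT R T X l := by
  classical
  obtain ⟨B, hBc, hB⟩ := BR.small P₀ T l _ (fun _ => univ) rfl (by
    rintro ⟨r, hr, f, hf, H⟩
    exact hT ⟨r, hr, fun _ => P₀, fun _ => hP₀, f, hf, fun x _ => H x fun _ _ => mem_univ _⟩)
  refine ⟨fun α => (B (P₀.part α)).image fun z =>
    z ⟨α, (P₀.mem_part (mem_univ α))⟩, fun α => ?_, ?_⟩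
  · exact Finset.card_image_le.trans (hBc _ (P₀.part_mem.2 (mem_univ α)))
  · rintro ⟨r, hr, P, hP, f, hf, H⟩
    apply hB
    refine ⟨r, hr, fun i S' x => ∏ S ∈ (P i).parts with S ⊆ S', f i S x, fun i S' x y hxy => ?_,
      fun x hx => ?_⟩
    · refine Finset.prod_congr rfl fun S hS => hf i S x y fun α hα => hxy α ?_
      exact (Finset.mem_filter.1 hS).2 hα
    · rw [H x fun α => ?_]
      · refine Finset.sum_congr rfl fun i _ => ?_
        exact coarsen (hR _ (hP i)) _
      · exact Finset.mem_image.2 ⟨_, hx _ (P₀.part_mem.2 (mem_univ α)), rfl⟩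

end

end Pool.Agent.H402.FR
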